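import Mathlib

set_option autoImplicit false

/-! # A multiplicative Littlewood-Offord bound (via Sperner's theorem) -/

namespace Pool.Agent.R361.AC

open Finset

lemma lo {κ : Type*} [Fintype κ] [DecidableEq κ] (f : κ → Bool → ℝ) (hf : ∀ q b, 0 < f q b)
    (δ : ℝ) (hδ : 0 < δ)
    (hgap : ∀ q, (1 + δ) * f q false ≤ f q true ∨ (1 + δ) * f q true ≤ f q false) (a : ℝ)
    (B : Finset (κ → Bool))
    (hB : ∀ b ∈ B, a ≤ ∏ q, f q (b q) ∧ ∏ q, f q (b q) < (1 + δ) * a) :
    #B ≤ (Fintype.card κ).choose (Fintype.card κ / 2) := by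
  classical
  have h1 : ∀ q, ∃ o : Bool, (1 + δ) * f q (!o) ≤ f q o := by
    intro q
    rcases hgap q with h | h
    · exact ⟨true, h⟩
    · exact ⟨false, h⟩
  choose o ho using h1
  have hoo : ∀ q, f q (!o q) ≤ f q (o q) := fun q => by nlinarith [ho q, hf q (!o q)]
  set Φ : (κ → Bool) → Finset κ := fun b => univ.filter (fun q => b q = o q) with hΦ
  have hinj : Function.Injective Φ := by
    intro b b' hbb
    funext q
    have h2 : q ∈ Φ b ↔ q ∈ Φ b' := by rw [hbb]
    simp only [hΦ, mem_filter, mem_univ, true_and] at h2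
    cases hb : b q <;> cases hb' : b' q <;> cases hoq : o q <;> simp_all
  have hanti : IsAntichain (· ⊆ ·) ((B.image Φ : Finset (Finset κ)) : Set (Finset κ)) := by
    intro s hs t ht hst hsub
    rw [mem_coe, mem_image] at hs ht
    obtain ⟨b, hb, rfl⟩ := hs
    obtain ⟨b', hb', rfl⟩ := ht
    obtain ⟨q0, hq0, hq0'⟩ : ∃ q0, q0 ∈ Φ b' ∧ q0 ∉ Φ b := by
      by_contra hcon
      push Not at hcon
      exact hst (Subset.antisymm hsub hcon)
    have hle : ∀ q, f q (b q) ≤ f q (b' q) := by
      intro q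
      by_cases hq : q ∈ Φ b
      · have hq' := hsub hq
        simp only [hΦ, mem_filter, mem_univ, true_and] at hq hq'
        rw [hq, hq']
      · have : b q = !o q := by
          simp only [hΦ, mem_filter, mem_univ, true_and] at hq
          cases hb : b q <;> cases hoq : o q <;> simp_all
        rw [this]
        by_cases hq' : b' q = o q
        · rw [hq']; exact hoo q
        · have : b' q = !o q := by
            cases hb : b' q <;> cases hoq : o q <;> simp_all
          rw [this]
    have hlt : (1 + δ) * f q0 (b q0) ≤ f q0 (b' q0) := by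
      have e1 : b q0 = !o q0 := by
        simp only [hΦ, mem_filter, mem_univ, true_and] at hq0'
        cases hb : b q0 <;> cases hoq : o q0 <;> simp_all
      have e2 : b' q0 = o q0 := by
        simpa only [hΦ, mem_filter, mem_univ, true_and] using hq0
      rw [e1, e2]
      exact ho q0
    have hprod : (1 + δ) * ∏ q, f q (b q) ≤ ∏ q, f q (b' q) := by
      rw [← mul_prod_erase univ (fun q => f q (b q)) (mem_univ q0),
        ← mul_prod_erase univ (fun q => f q (b' q)) (mem_univ q0), ← mul_assoc]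
      apply mul_le_mul hlt
      · exact prod_le_prod (fun q _ => (hf q _).le) (fun q _ => hle q)
      · exact prod_nonneg fun q _ => (hf q _).le
      · exact (hf q0 _).le
    have h3 := (hB b hb).1
    have h4 := (hB b' hb').2
    nlinarith
  have := hanti.sperner
  rwa [card_image_of_injective _ hinj] at this

open Classical in
theorem patterns {κ : Type*} [Fintype κ] [DecidableEq κ] (h : ℕ)
    (G : κ → Fin h × Bool → ℝ) (hG : ∀ q z, 0 < G q z) (K : Finset κ) (δ : ℝ) (hδ : 0 < δ)
    (hgap : ∀ q ∈ K, ∀ r, (1 + δ) * G q (r, false) ≤ G q (r, true) ∨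
      (1 + δ) * G q (r, true) ≤ G q (r, false)) (a : ℝ) :
    #(univ.filter (fun x : κ → Fin h × Bool => a ≤ ∏ q, G q (x q) ∧
      ∏ q, G q (x q) < (1 + δ) * a)) * 2 ^ #K ≤
      (2 * h) ^ (Fintype.card κ) * (#K).choose (#K / 2) := by
  set Bad := univ.filter (fun x : κ → Fin h × Bool => a ≤ ∏ q, G q (x q) ∧
      ∏ q, G q (x q) < (1 + δ) * a) with hBad
  set act : (K → Bool) → (κ → Fin h × Bool) → (κ → Fin h × Bool) := fun ε x q =>
    if hq : q ∈ K then ((x q).1, xor (x q).2 (ε ⟨q, hq⟩)) else x q with hact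
  have hinv : ∀ ε, Function.Involutive (act ε) := by
    intro ε x
    funext q
    simp only [hact]
    split_ifs with hq
    · ext
      · rfl
      · simp
    · rfl
  have h1 : ∀ ε : K → Bool, #(univ.filter (fun x => act ε x ∈ Bad)) = #Bad := by
    intro ε
    have : univ.filter (fun x => act ε x ∈ Bad) = Bad.map (hinv ε).toPerm.toEmbedding := by
      ext x
      simp only [mem_filter, mem_univ, true_and, mem_map, Equiv.toEmbedding_apply,
        Function.Involutive.coe_toPerm]
      constructor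
      · intro hx
        exact ⟨act ε x, hx, hinv ε x⟩
      · rintro ⟨y, hy, rfl⟩
        rwa [hinv ε y]
    rw [this, card_map]
  have h2 : #Bad * 2 ^ #K = ∑ ε : K → Bool, #(univ.filter (fun x => act ε x ∈ Bad)) := by
    rw [sum_congr rfl fun ε _ => h1 ε, sum_const, card_univ, smul_eq_mul, mul_comm]
    congr 1
    simp
  have h3 : ∑ ε : K → Bool, #(univ.filter (fun x => act ε x ∈ Bad)) =
      ∑ x : κ → Fin h × Bool, #(univ.filter (fun ε => act ε x ∈ Bad)) := by
    simp only [card_filter]
    rw [sum_comm]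
  have h4 : ∀ x : κ → Fin h × Bool, #(univ.filter (fun ε => act ε x ∈ Bad)) ≤
      (#K).choose (#K / 2) := by
    intro x
    have hK : Fintype.card K = #K := Fintype.card_coe K
    rw [← hK]
    set c : ℝ := ∏ q ∈ univ.filter (fun q => q ∉ K), G q (x q) with hc
    have hc0 : 0 < c := prod_pos fun q _ => hG q _
    have hsplit : ∀ ε : K → Bool, ∏ q, G q (act ε x q) =
        (∏ q : K, G q ((x q).1, xor (x q).2 (ε q))) * c := by
      intro ε
      rw [← prod_filter_mul_prod_filter_not univ (fun q => q ∈ K)]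
      congr 1
      · rw [show univ.filter (fun q => q ∈ K) = K by ext; simp]
        rw [← prod_coe_sort K]
        apply prod_congr rfl
        intro q _
        simp only [hact]
        rw [dif_pos q.2]
      · rw [hc]
        apply prod_congr rfl
        intro q hq
        rw [mem_filter] at hq
        simp only [hact]
        rw [dif_neg hq.2]
    apply lo (fun (q : K) b => G q ((x q).1, xor (x q).2 b)) (fun q b => hG _ _) δ hδ _ (a / c)
    · intro ε hε
      rw [mem_filter, hBad, mem_filter] at hε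
      have h5 := hε.2.2
      rw [hsplit] at h5
      constructor
      · rw [div_le_iff₀ hc0]; exact h5.1
      · rw [← mul_div_assoc, lt_div_iff₀ hc0]; exact h5.2
    · intro q
      have := hgap q q.2 (x q).1
      cases hb : (x q).2
      · simpa using this
      · simpa using this.symm
  rw [h2, h3]
  calc ∑ x : κ → Fin h × Bool, #(univ.filter (fun ε => act ε x ∈ Bad))
      ≤ ∑ _x : κ → Fin h × Bool, (#K).choose (#K / 2) := sum_le_sum fun x _ => h4 x
    _ = (2 * h) ^ (Fintype.card κ) * (#K).choose (#K / 2) := by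
        rw [sum_const, card_univ, smul_eq_mul]
        congr 1
        simp [mul_comm]

/-- the central binomial coefficient is `o(4^n)` -/
lemma central_sq (n : ℕ) : (n.centralBinom) ^ 2 * (2 * n + 1) ≤ 16 ^ n := by
  induction n with
  | zero => simp
  | succ n ih =>
    have h := Nat.succ_mul_centralBinom_succ n
    have h1 : (n + 1) ^ 2 * ((n + 1).centralBinom ^ 2 * (2 * (n + 1) + 1)) ≤
        (n + 1) ^ 2 * 16 ^ (n + 1) := by
      calc (n + 1) ^ 2 * ((n + 1).centralBinom ^ 2 * (2 * (n + 1) + 1)) =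
          ((n + 1) * (n + 1).centralBinom) ^ 2 * (2 * n + 3) := by ring
        _ = (2 * (2 * n + 1) * n.centralBinom) ^ 2 * (2 * n + 3) := by rw [h]
        _ = (n.centralBinom ^ 2 * (2 * n + 1)) * (4 * (2 * n + 1) * (2 * n + 3)) := by ring
        _ ≤ 16 ^ n * (4 * (2 * n + 1) * (2 * n + 3)) := Nat.mul_le_mul_right _ ih
        _ ≤ 16 ^ n * (16 * (n + 1) ^ 2) := by
            apply Nat.mul_le_mul_left
            nlinarith
        _ = (n + 1) ^ 2 * 16 ^ (n + 1) := by ring
    exact Nat.le_of_mul_le_mul_left h1 (by positivity)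

lemma binom_small (ε : ℝ) (hε : 0 < ε) : ∃ K0 : ℕ, ∀ n ≥ K0,
    (((2 * n).choose n : ℕ) : ℝ) ≤ ε * 2 ^ (2 * n) := by
  obtain ⟨K0, hK0⟩ := exists_nat_ge (1 / ε ^ 2)
  refine ⟨K0, fun n hn => ?_⟩
  have h1 := central_sq n
  rw [Nat.centralBinom_eq_two_mul_choose] at h1
  have h2 : (((2 * n).choose n : ℕ) : ℝ) ^ 2 * (2 * n + 1) ≤ 16 ^ n := by exact_mod_cast h1
  have h3 : 1 ≤ ε ^ 2 * (2 * n + 1) := by
    have : (K0 : ℝ) ≤ n := by exact_mod_cast hn
    rw [div_le_iff₀ (by positivity)] at hK0
    nlinarith [mul_le_mul_of_nonneg_left this (sq_nonneg ε), sq_nonneg ε]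
  have h4 : (((2 * n).choose n : ℕ) : ℝ) ^ 2 ≤ (ε * 2 ^ (2 * n)) ^ 2 := by
    have e1 : (ε * 2 ^ (2 * n)) ^ 2 = ε ^ 2 * 16 ^ n := by
      rw [mul_pow, ← pow_mul, show 2 * n * 2 = 4 * n by ring, pow_mul]
      norm_num
    rw [e1]
    have h5 : (((2 * n).choose n : ℕ) : ℝ) ^ 2 * 1 ≤
        (((2 * n).choose n : ℕ) : ℝ) ^ 2 * (ε ^ 2 * (2 * n + 1)) :=
      mul_le_mul_of_nonneg_left h3 (sq_nonneg _)
    nlinarith [mul_le_mul_of_nonneg_left h2 (sq_nonneg ε)]
  exact (abs_le_of_sq_le_sq' h4 (by positivity)).2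

end Pool.Agent.R361.AC
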