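import Mathlib
import Pool.Agent.H771R4.SE.LS

set_option autoImplicit false

/-! # Short character sums over odd numbers for almost all primes -/

namespace Pool.Agent.R361.AC

open Finset Filter Topology
open Pool.Agent.H386R2.Artin (PP Good)
open Pool.Agent.H386R2.Artin.T1 (cc)

/-- the odd numbers up to `t` -/
def oddTo (t : ℕ) : Finset ℕ := (Icc 1 t).filter (fun n => n % 2 = 1)

open Classical in
/-- one value of `t` -/
lemma one_t (r : ℕ) (hr : 1 ≤ r) : ∃ B : ℝ, 0 < B ∧ ∀ x t : ℕ, 1 ≤ t → t ≤ x →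
    (x : ℝ) ^ 2 ≤ (t : ℝ) ^ r → ∀ T : ℝ, 1 ≤ T →
    (#((PP x).filter (fun p => ¬ Good (oddTo t) ((t : ℝ) / T) p)) : ℝ) ≤
      B * (x : ℝ) ^ (1 / 2 : ℝ) * T ^ (2 * r) := by
  have hr0 : (0 : ℝ) < r := by exact_mod_cast hr
  obtain ⟨C, hC, hτ⟩ := Pool.Agent.H510R2.divisor_bound (1 / (2 * r * r)) (by positivity)
  refine ⟨12 * C ^ r, by positivity, ?_⟩
  intro x t ht htx hx T hT
  have ht0 : (0 : ℝ) < t := by exact_mod_cast ht
  have hx0 : (0 : ℝ) < x := by exact_mod_cast (by omega : 0 < x)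
  have hT0 : 0 < T := by linarith
  set K : ℝ := C ^ r * (x : ℝ) ^ (1 / 2 : ℝ) with hK
  have hcc : ∀ n ∈ Icc 1 (t ^ r), (cc (oddTo t) r n : ℝ) ≤ K := by
    intro n hn
    rw [mem_Icc] at hn
    have hn1 : n ≠ 0 := by omega
    have h3 : (cc (oddTo t) r n : ℝ) ≤ (n.divisors.card : ℝ) ^ r := by
      exact_mod_cast Pool.Agent.H771R4.SE.cc_leI (oddTo t) r n hn1
    have hnx : (n : ℝ) ≤ (x : ℝ) ^ (r : ℝ) := by
      rw [Real.rpow_natCast]
      have h4 : n ≤ x ^ r := hn.2.trans (Nat.pow_le_pow_left htx r)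
      exact_mod_cast h4
    have h4 : (n.divisors.card : ℝ) ≤ C * (x : ℝ) ^ (1 / (2 * r) : ℝ) := by
      refine (hτ n hn.1).trans ?_
      apply mul_le_mul_of_nonneg_left _ hC.le
      calc (n : ℝ) ^ (1 / (2 * r * r) : ℝ) ≤ ((x : ℝ) ^ (r : ℝ)) ^ (1 / (2 * r * r) : ℝ) :=
            Real.rpow_le_rpow (Nat.cast_nonneg _) hnx (by positivity)
        _ = (x : ℝ) ^ (1 / (2 * r) : ℝ) := by
            rw [← Real.rpow_mul hx0.le]
            congr 1
            field_simp
    have h5 : (n.divisors.card : ℝ) ^ r ≤ (C * (x : ℝ) ^ (1 / (2 * r) : ℝ)) ^ r :=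
      pow_le_pow_left₀ (Nat.cast_nonneg _) h4 _
    refine h3.trans (h5.trans (le_of_eq ?_))
    rw [mul_pow, hK]
    congr 1
    rw [← Real.rpow_natCast, ← Real.rpow_mul hx0.le]
    congr 1
    field_simp
  have hbad := Pool.Agent.H771R4.SE.badCountI (oddTo t) t x r ((t : ℝ) / T) K
    (filter_subset _ _) (by positivity) (by positivity) hcc
  have hE : (#(oddTo t) : ℝ) ≤ t := by
    have : #(oddTo t) ≤ t := by
      refine (card_le_card (filter_subset _ _)).trans ?_
      simp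
    exact_mod_cast this
  have hEr : (#(oddTo t) : ℝ) ^ r ≤ (t : ℝ) ^ r := pow_le_pow_left₀ (Nat.cast_nonneg _) hE r
  set b : ℝ := (#((PP x).filter (fun p => ¬ Good (oddTo t) ((t : ℝ) / T) p)) : ℝ) with hb
  have h1 : b * ((t : ℝ) / T) ^ (2 * r) ≤ 6 * ((t : ℝ) ^ r + (t : ℝ) ^ r) * (K * (t : ℝ) ^ r) := by
    refine hbad.trans ?_
    apply mul_le_mul
    · linarith
    · exact mul_le_mul_of_nonneg_left hEr (by positivity)
    · positivity
    · positivity
  have h2 : ((t : ℝ) / T) ^ (2 * r) = (t : ℝ) ^ r * (t : ℝ) ^ r / T ^ (2 * r) := by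
    rw [div_pow, two_mul, pow_add]
  rw [h2, ← mul_div_assoc, div_le_iff₀ (by positivity)] at h1
  have h3 : (0 : ℝ) < (t : ℝ) ^ r * (t : ℝ) ^ r := by positivity
  rw [← mul_le_mul_iff_left₀ h3]
  refine h1.trans (le_of_eq ?_)
  rw [hK]; ring

open Classical in
/-- For all but at most `x^{3/4}` primes `p ≤ x`, all sums of non-principal characters mod `p` over
the odd numbers up to `t` are at most `3t/log³ x`, for every `t` between `x^δ` and `x`. -/
theorem tail_few (δ : ℝ) (hδ0 : 0 < δ) (hδ1 : δ < 1) :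
    ∃ x0 : ℕ, ∀ x ≥ x0, ∃ Exc : Finset ℕ, (#Exc : ℝ) ≤ (x : ℝ) ^ (3 / 4 : ℝ) ∧
      ∀ p, p.Prime → p ≤ x → p ∉ Exc → ∀ χ : DirichletCharacter ℂ p, χ ≠ 1 → ∀ t : ℕ,
        (x : ℝ) ^ δ ≤ t → t ≤ x →
        ‖∑ n ∈ oddTo t, χ (n : ZMod p)‖ ≤ 3 * t / (Real.log x) ^ 3 := by
  set r : ℕ := ⌈4 / δ⌉₊ with hr
  have hr4 : 4 / δ ≤ r := Nat.le_ceil _
  have hr1 : 1 ≤ r := by
    have : (0 : ℝ) < r := lt_of_lt_of_le (by positivity) hr4
    exact_mod_cast this
  obtain ⟨B, hB, hone⟩ := one_t r hr1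
  have hlogt : Tendsto (fun x : ℕ => Real.log x) atTop atTop :=
    Real.tendsto_log_atTop.comp tendsto_natCast_atTop_atTop
  have e1 : ∀ᶠ x : ℕ in atTop, 2 ≤ Real.log x := hlogt.eventually_ge_atTop 2
  have hpl : ∀ (a : ℕ) (c s : ℝ), 0 < s → 0 < c →
      ∀ᶠ x : ℕ in atTop, c * (Real.log x) ^ a ≤ (x : ℝ) ^ s := by
    intro a c s hs hc
    have h1 := (isLittleO_log_rpow_rpow_atTop (a : ℝ) hs).bound (show (0 : ℝ) < 1 / c by positivity)
    have h2 := tendsto_natCast_atTop_atTop (R := ℝ) |>.eventually h1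
    filter_upwards [h2, e1] with x hx hx1
    rw [Real.rpow_natCast, Real.norm_eq_abs, Real.norm_eq_abs, abs_of_nonneg (by positivity),
      abs_of_nonneg (by positivity)] at hx
    have := mul_le_mul_of_nonneg_left hx hc.le
    refine this.trans (le_of_eq ?_)
    field_simp
  have e2 := hpl (6 * r + 4) (72 * B) (1 / 4) (by norm_num) (by positivity)
  have e3 := hpl 3 1 δ hδ0 one_pos
  have e4 := hpl 1 1 (δ / 2) (by positivity) one_pos
  obtain ⟨x0, hx0⟩ := eventually_atTop.mp (e1.and (e2.and (e3.and e4)))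
  refine ⟨x0, fun x hx => ?_⟩
  obtain ⟨f1, f2, f3, f4⟩ := hx0 x hx
  have hxpos : (0 : ℝ) < x := by
    by_contra hcon
    push Not at hcon
    have : x = 0 := by
      have h := le_antisymm hcon (Nat.cast_nonneg x)
      exact_mod_cast h
    rw [this] at f1
    simp at f1
    linarith
  have hx1 : 1 ≤ x := by exact_mod_cast hxpos
  set L : ℝ := Real.log x with hL
  set T : ℝ := L ^ 3 with hT
  have hT1 : 1 ≤ T := one_le_pow₀ (by linarith)
  set T0 : ℕ := ⌈T⌉₊ with hT0
  have hT0T : T ≤ T0 := Nat.le_ceil _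
  have hT0T' : (T0 : ℝ) < T + 1 := Nat.ceil_lt_add_one (by positivity)
  have hT0pos : 0 < T0 := by
    have : (0 : ℝ) < T0 := by linarith
    exact_mod_cast this
  set net : ℕ × ℕ → ℕ := fun z => 2 ^ z.1 + (2 ^ z.1 * z.2) / T0 with hnet
  set I := (range (Nat.log 2 x + 1) ×ˢ range T0).filter
    (fun z => (x : ℝ) ^ (δ / 2) ≤ (net z : ℝ) ∧ net z ≤ x) with hI
  set Exc := I.biUnion (fun z => (PP x).filter
    (fun p => ¬ Good (oddTo (net z)) ((net z : ℝ) / T) p)) with hExc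
  refine ⟨Exc, ?_, ?_⟩
  · have h1 : (#Exc : ℝ) ≤ ∑ z ∈ I, (B * (x : ℝ) ^ (1 / 2 : ℝ) * T ^ (2 * r)) := by
      have : #Exc ≤ ∑ z ∈ I, #((PP x).filter
          (fun p => ¬ Good (oddTo (net z)) ((net z : ℝ) / T) p)) := card_biUnion_le
      have h2 : (#Exc : ℝ) ≤ ∑ z ∈ I, (#((PP x).filter
          (fun p => ¬ Good (oddTo (net z)) ((net z : ℝ) / T) p)) : ℝ) := by exact_mod_cast this
      refine h2.trans (sum_le_sum fun z hz => ?_)
      rw [hI, mem_filter] at hz
      apply hone x (net z) _ hz.2.2 _ T hT1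
      · simp only [hnet]
        exact le_trans Nat.one_le_two_pow (Nat.le_add_right _ _)
      · have h3 : ((x : ℝ) ^ (δ / 2)) ^ r ≤ (net z : ℝ) ^ r :=
          pow_le_pow_left₀ (by positivity) hz.2.1 r
        refine le_trans ?_ h3
        rw [← Real.rpow_natCast ((x : ℝ) ^ (δ / 2)), ← Real.rpow_mul hxpos.le,
          ← Real.rpow_natCast (x : ℝ) 2]
        apply Real.rpow_le_rpow_of_exponent_le (by exact_mod_cast hx1)
        rw [div_le_iff₀ hδ0] at hr4
        push_cast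
        linarith
    refine h1.trans ?_
    rw [sum_const, nsmul_eq_mul]
    have h2 : (#I : ℝ) ≤ (3 * L) * (2 * T) := by
      have h3 : #I ≤ (Nat.log 2 x + 1) * T0 := by
        refine (card_le_card (filter_subset _ _)).trans ?_
        simp
      have h4 : (#I : ℝ) ≤ ((Nat.log 2 x : ℝ) + 1) * T0 := by exact_mod_cast h3
      refine h4.trans ?_
      apply mul_le_mul
      · have h5 : (2 : ℝ) ^ (Nat.log 2 x) ≤ x := by
          exact_mod_cast Nat.pow_log_le_self 2 (by omega)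
        have h6 := Real.log_le_log (by positivity) h5
        rw [Real.log_pow] at h6
        have h7 := Real.log_two_gt_d9
        have h8 : (Nat.log 2 x : ℝ) * (1 / 2) ≤ (Nat.log 2 x : ℝ) * Real.log 2 := by
          apply mul_le_mul_of_nonneg_left _ (Nat.cast_nonneg _)
          linarith
        linarith
      · linarith
      · positivity
      · positivity
    calc (#I : ℝ) * (B * (x : ℝ) ^ (1 / 2 : ℝ) * T ^ (2 * r)) ≤
          ((3 * L) * (2 * T)) * (B * (x : ℝ) ^ (1 / 2 : ℝ) * T ^ (2 * r)) := by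
          apply mul_le_mul_of_nonneg_right h2 (by positivity)
      _ = (6 * B * L ^ (6 * r + 4)) * (x : ℝ) ^ (1 / 2 : ℝ) := by
          rw [hT]; ring
      _ ≤ (x : ℝ) ^ (1 / 4 : ℝ) * (x : ℝ) ^ (1 / 2 : ℝ) := by
          apply mul_le_mul_of_nonneg_right _ (by positivity)
          refine le_trans ?_ f2
          have : 0 ≤ L ^ (6 * r + 4) := by positivity
          nlinarith [mul_nonneg hB.le this]
      _ = (x : ℝ) ^ (3 / 4 : ℝ) := by
          rw [← Real.rpow_add hxpos]; norm_num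
  · intro p hp hpx hpE χ hχ t ht1 ht2
    have htpos : (0 : ℝ) < t := lt_of_lt_of_le (by positivity) ht1
    have ht0 : t ≠ 0 := by
      have : 0 < t := by exact_mod_cast htpos
      omega
    set k := Nat.log 2 t with hk
    have hk1 : 2 ^ k ≤ t := Nat.pow_log_le_self 2 ht0
    have hk2 : t < 2 ^ (k + 1) := Nat.lt_pow_succ_log_self (by norm_num) t
    have hk2' : t < 2 * 2 ^ k := by rw [pow_succ] at hk2; omega
    set j := ((t - 2 ^ k) * T0) / 2 ^ k with hj
    have hj1 : j < T0 := by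
      rw [hj, Nat.div_lt_iff_lt_mul (by positivity), mul_comm T0]
      apply Nat.mul_lt_mul_of_pos_right _ hT0pos
      omega
    have hj2 : 2 ^ k * j ≤ (t - 2 ^ k) * T0 := by
      rw [hj]; exact Nat.mul_div_le _ _
    have hj3 : (t - 2 ^ k) * T0 < 2 ^ k * (j + 1) := by
      rw [hj, mul_comm (2 ^ k)]
      exact Nat.lt_mul_of_div_lt (Nat.lt_succ_self _) (by positivity)
    set t' := net (k, j) with ht'
    have ht'eq : t' = 2 ^ k + (2 ^ k * j) / T0 := rfl
    have ht't : t' ≤ t := by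
      have : (2 ^ k * j) / T0 ≤ t - 2 ^ k := by
        rw [Nat.div_le_iff_le_mul_add_pred hT0pos]
        have : (t - 2 ^ k) * T0 = T0 * (t - 2 ^ k) := mul_comm _ _
        omega
      omega
    have hdiff : ((t : ℝ) - t') * T0 ≤ 2 ^ k + T0 := by
      have h1 : 2 ^ k * j < T0 * ((2 ^ k * j) / T0 + 1) := Nat.lt_mul_div_succ _ hT0pos
      have h2 : (t - 2 ^ k) * T0 < T0 * ((2 ^ k * j) / T0 + 1) + 2 ^ k := by
        calc (t - 2 ^ k) * T0 < 2 ^ k * (j + 1) := hj3
          _ = 2 ^ k * j + 2 ^ k := by ring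
          _ < _ := by omega
      have h3 : (((t - 2 ^ k : ℕ) : ℝ)) * T0 < T0 * ((((2 ^ k * j) / T0 : ℕ) : ℝ) + 1) + 2 ^ k := by
        exact_mod_cast h2
      rw [Nat.cast_sub hk1] at h3
      push_cast at h3
      have h4 : (t' : ℝ) = 2 ^ k + (((2 ^ k * j) / T0 : ℕ) : ℝ) := by
        rw [ht'eq]; push_cast; rfl
      rw [h4]
      nlinarith
    have hzI : (k, j) ∈ I := by
      rw [hI, mem_filter, mem_product, mem_range, mem_range]
      refine ⟨⟨?_, hj1⟩, ?_, ht't.trans ht2⟩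
      · have h9 : Nat.log 2 t ≤ Nat.log 2 x := Nat.log_mono_right ht2
        exact Nat.lt_succ_of_le h9
      · have h1 : (2 : ℝ) ^ k ≤ t' := by
          have : 2 ^ k ≤ t' := by rw [ht'eq]; exact Nat.le_add_right _ _
          exact_mod_cast this
        have h2 : (t : ℝ) ≤ 2 * 2 ^ k := by exact_mod_cast hk2'.le
        have h3 : (x : ℝ) ^ δ = (x : ℝ) ^ (δ / 2) * (x : ℝ) ^ (δ / 2) := by
          rw [← Real.rpow_add hxpos]; congr 1; ring
        have h4 : 2 ≤ (x : ℝ) ^ (δ / 2) := by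
          rw [one_mul, pow_one] at f4
          linarith
        have h5 : 0 ≤ (x : ℝ) ^ (δ / 2) := by positivity
        nlinarith
    have hgood : Good (oddTo t') ((t' : ℝ) / T) p := by
      by_contra hcon
      apply hpE
      rw [hExc, mem_biUnion]
      refine ⟨(k, j), hzI, ?_⟩
      rw [mem_filter]
      refine ⟨?_, hcon⟩
      rw [PP, mem_filter, mem_range]
      exact ⟨by omega, hp⟩
    have h1 := hgood χ hχ
    have hsub : oddTo t' ⊆ oddTo t := by
      intro n hn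
      rw [oddTo, mem_filter, mem_Icc] at hn ⊢
      exact ⟨⟨hn.1.1, hn.1.2.trans ht't⟩, hn.2⟩
    rw [← sum_sdiff hsub]
    have h2 : ‖∑ n ∈ oddTo t \ oddTo t', χ (n : ZMod p)‖ ≤ (t : ℝ) - t' := by
      refine (norm_sum_le _ _).trans ?_
      have h3 : ∑ n ∈ oddTo t \ oddTo t', ‖χ (n : ZMod p)‖ ≤ ∑ n ∈ oddTo t \ oddTo t', (1 : ℝ) :=
        sum_le_sum fun n _ => DirichletCharacter.norm_le_one χ _
      refine h3.trans ?_
      rw [sum_const, nsmul_eq_mul, mul_one]
      have h4 : oddTo t \ oddTo t' ⊆ Ioc t' t := by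
        intro n hn
        rw [Finset.mem_sdiff, oddTo, oddTo, mem_filter, mem_filter, mem_Icc, mem_Icc] at hn
        rw [mem_Ioc]
        omega
      have h5 := card_le_card h4
      rw [Nat.card_Ioc] at h5
      have h6 : (#(oddTo t \ oddTo t') : ℝ) ≤ ((t - t' : ℕ) : ℝ) := by exact_mod_cast h5
      rw [Nat.cast_sub ht't] at h6
      exact h6
    refine (norm_add_le _ _).trans ?_
    have hTpos : 0 < T := by linarith
    have hT0pos' : (0 : ℝ) < T0 := by exact_mod_cast hT0pos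
    have h3 : (t : ℝ) - t' ≤ 2 * t / T := by
      have h4 : (2 : ℝ) ^ k ≤ t := by exact_mod_cast hk1
      have h5 : T ≤ t := by
        rw [one_mul] at f3
        exact f3.trans ht1
      have h6 : (t : ℝ) - t' ≤ 2 ^ k / T0 + 1 := by
        rw [← sub_nonneg]
        have : 2 ^ k / (T0 : ℝ) + 1 - (t - t') = (2 ^ k + T0 - (t - t') * T0) / T0 := by
          field_simp
        rw [this]
        apply div_nonneg _ hT0pos'.le
        linarith
      have h7 : (2 : ℝ) ^ k / T0 ≤ t / T := by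
        apply div_le_div₀ htpos.le h4 hTpos hT0T
      have h8 : 1 ≤ t / T := by rw [le_div_iff₀ hTpos]; linarith
      calc (t : ℝ) - t' ≤ t / T + t / T := by linarith
        _ = 2 * t / T := by ring
    have h4 : (t' : ℝ) / T ≤ t / T := by
      apply div_le_div_of_nonneg_right _ hTpos.le
      exact_mod_cast ht't
    calc _ ≤ 2 * t / T + t / T := by linarith
      _ = 3 * t / T := by ring

end Pool.Agent.R361.AC
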