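import Mathlib
import Pool.Agent.R361.AC.Tail

set_option autoImplicit false

/-! # The half sum of an odd character as a finite cotangent sum -/

namespace Pool.Agent.R361.AC

open Finset Filter Topology
open scoped ComplexConjugate

lemma sin_sum (θ : ℝ) (n : ℕ) :
    2 * Real.sin (θ / 2) * ∑ a ∈ Icc 1 n, Real.sin (a * θ) =
      Real.cos (θ / 2) - Real.cos ((n + 1 / 2) * θ) := by
  induction n with
  | zero =>
    have : ((0 : ℕ) + 1 / 2 : ℝ) * θ = θ / 2 := by push_cast; ring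
    rw [this]; simp
  | succ n ih =>
    rw [sum_Icc_succ_top (by omega), mul_add, ih]
    have h1 := Real.cos_sub_cos ((n + 1 / 2) * θ) (((n + 1 : ℕ) + 1 / 2) * θ)
    have e1 : ((n + 1 / 2) * θ + ((n + 1 : ℕ) + 1 / 2) * θ) / 2 = ((n + 1 : ℕ) : ℝ) * θ := by
      push_cast; ring
    have e2 : ((n + 1 / 2) * θ - ((n + 1 : ℕ) + 1 / 2) * θ) / 2 = - (θ / 2) := by
      push_cast; ring
    rw [e1, e2, Real.sin_neg] at h1
    linarith

lemma sin_half_sum (p k : ℕ) (hp : p % 2 = 1) (hk : k % 2 = 1) (hkp : k < p) :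
    ∑ a ∈ Icc 1 ((p - 1) / 2), Real.sin (a * (2 * Real.pi * k / p)) =
      Real.cos (Real.pi * k / (2 * p)) / (2 * Real.sin (Real.pi * k / (2 * p))) := by
  have hp0 : (0 : ℝ) < p := by exact_mod_cast (by omega : 0 < p)
  have hk0 : (0 : ℝ) < k := by exact_mod_cast (by omega : 0 < k)
  have hkp' : (k : ℝ) < p := by exact_mod_cast hkp
  have hpi := Real.pi_pos
  set x : ℝ := Real.pi * k / (2 * p) with hx
  have hx0 : 0 < x := by positivity
  have hx1 : x < Real.pi / 2 := by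
    rw [hx, div_lt_div_iff₀ (by positivity) (by norm_num)]
    nlinarith
  have hs : 0 < Real.sin x := Real.sin_pos_of_pos_of_lt_pi hx0 (by linarith)
  have hc : 0 < Real.cos x := Real.cos_pos_of_mem_Ioo ⟨by linarith, hx1⟩
  have h1 := sin_sum (2 * Real.pi * k / p) ((p - 1) / 2)
  have e1 : 2 * Real.pi * k / p / 2 = 2 * x := by rw [hx]; field_simp
  have e2 : ((((p - 1) / 2 : ℕ) : ℝ) + 1 / 2) * (2 * Real.pi * k / p) = k * Real.pi := by
    have : ((((p - 1) / 2 : ℕ) : ℝ) + 1 / 2) = p / 2 := by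
      have h2 : 2 * ((p - 1) / 2) + 1 = p := by omega
      have h3 : (2 : ℝ) * (((p - 1) / 2 : ℕ) : ℝ) + 1 = p := by exact_mod_cast h2
      linarith
    rw [this]
    field_simp
  have e3 : Real.cos (k * Real.pi) = -1 := by
    rw [Real.cos_nat_mul_pi]
    rw [Odd.neg_one_pow (Nat.odd_iff.mpr hk)]
  rw [e1, e2, e3, Real.sin_two_mul, Real.cos_two_mul] at h1
  rw [eq_div_iff (by positivity)]
  have h4 : Real.cos x * (2 * Real.sin x * 2 *
      ∑ a ∈ Icc 1 ((p - 1) / 2), Real.sin (a * (2 * Real.pi * k / p))) =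
      Real.cos x * (2 * Real.cos x) := by linarith
  have h5 := mul_left_cancel₀ hc.ne' h4
  linarith

lemma sum_zmod_range (p : ℕ) [NeZero p] (Φ : ZMod p → ℂ) :
    ∑ k, Φ k = ∑ n ∈ range p, Φ n := by
  apply sum_nbij' (fun k : ZMod p => k.val) (fun n : ℕ => (n : ZMod p))
  · intro k _; rw [mem_range]; exact ZMod.val_lt k
  · intro n _; exact mem_univ _
  · intro k _; simp
  · intro n hn; rw [mem_range] at hn; exact ZMod.val_cast_of_lt hn
  · intro k _; simp

lemma sum_even (p : ℕ) [NeZero p] (hp : p % 2 = 1) (Φ : ZMod p → ℂ) (h0 : Φ 0 = 0)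
    (he : ∀ k, Φ (-k) = Φ k) : ∑ k, Φ k = 2 * ∑ n ∈ oddTo (p - 1), Φ n := by
  rw [sum_zmod_range]
  have h1 : range p = oddTo (p - 1) ∪ (range p).filter (fun n => n % 2 = 0) := by
    ext n
    simp only [oddTo, mem_union, mem_filter, mem_Icc, mem_range]
    omega
  have h2 : Disjoint (oddTo (p - 1)) ((range p).filter (fun n => n % 2 = 0)) := by
    rw [Finset.disjoint_left]
    intro n hn hn'
    simp only [oddTo, mem_filter, mem_Icc, mem_range] at hn hn'
    omega
  rw [h1, sum_union h2, two_mul]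
  congr 1
  have h3 : (range p).filter (fun n => n % 2 = 0) =
      insert 0 ((range p).filter (fun n => n % 2 = 0 ∧ n ≠ 0)) := by
    ext n
    simp only [mem_insert, mem_filter, mem_range]
    omega
  rw [h3, sum_insert (by simp), Nat.cast_zero, h0, zero_add]
  apply sum_nbij' (fun n => p - n) (fun n => p - n)
  · intro n hn
    simp only [oddTo, mem_filter, mem_Icc, mem_range] at hn ⊢
    omega
  · intro n hn
    simp only [oddTo, mem_filter, mem_Icc, mem_range] at hn ⊢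
    omega
  · intro n hn
    simp only [mem_filter, mem_range] at hn
    omega
  · intro n hn
    simp only [oddTo, mem_filter, mem_Icc] at hn
    omega
  · intro n hn
    simp only [mem_filter, mem_range] at hn
    rw [Nat.cast_sub (by omega), ZMod.natCast_self, zero_sub, he]

/-- the cotangent weights -/
noncomputable def cw (p k : ℕ) : ℝ :=
  Real.pi / (2 * p) * (Real.cos (Real.pi * k / (2 * p)) / Real.sin (Real.pi * k / (2 * p)))

theorem half_sum_eq (p : ℕ) [hp : Fact p.Prime] (hp2 : p % 2 = 1) (χ : DirichletCharacter ℂ p)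
    (hχ : χ.Odd) :
    (∑ a ∈ Icc 1 ((p - 1) / 2), χ (a : ZMod p)) * gaussSum χ⁻¹ ZMod.stdAddChar * (Real.pi / (2 * p)) =
      Complex.I * ∑ n ∈ oddTo (p - 1), χ⁻¹ (n : ZMod p) * (cw p n : ℂ) := by
  set ψ : AddChar (ZMod p) ℂ := ZMod.stdAddChar with hψ
  set H := (p - 1) / 2 with hH
  set F : ZMod p → ℂ := fun k => ∑ a ∈ Icc 1 H, ψ ((a : ZMod p) * k) with hF
  have hp0 : (0 : ℝ) < p := by exact_mod_cast hp.out.pos
  have hodd' : χ⁻¹ (-1) = -1 := by
    rw [MulChar.inv_apply_eq_inv, hχ]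
    simp
  have h1 : (∑ a ∈ Icc 1 H, χ (a : ZMod p)) * gaussSum χ⁻¹ ψ = ∑ k, χ⁻¹ k * F k := by
    rw [sum_mul]
    have h2 : ∀ a ∈ Icc 1 H, χ (a : ZMod p) * gaussSum χ⁻¹ ψ =
        ∑ k, χ⁻¹ k * ψ ((a : ZMod p) * k) := by
      intro a ha
      rw [mem_Icc] at ha
      have hu : IsUnit (a : ZMod p) := by
        rw [isUnit_iff_ne_zero, Ne, ZMod.natCast_eq_zero_iff]
        intro h
        have := Nat.le_of_dvd (by omega) h
        omega
      obtain ⟨u, hu⟩ := hu
      have h3 := gaussSum_mulShift_eq χ⁻¹ ψ u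
      rw [inv_inv, hu] at h3
      rw [← h3]
      rfl
    rw [sum_congr rfl h2, sum_comm]
    apply sum_congr rfl
    intro k _
    rw [hF]
    simp only
    rw [mul_sum]
  have h2 : ∑ k, χ⁻¹ k * F k = - ∑ k, χ⁻¹ k * F (-k) := by
    rw [← Equiv.sum_comp (Equiv.neg (ZMod p)) (fun k => χ⁻¹ k * F k), ← sum_neg_distrib]
    apply sum_congr rfl
    intro k _
    simp only [Equiv.neg_apply]
    rw [show -k = -1 * k by ring, map_mul, hodd']
    ring
  set Φ : ZMod p → ℂ := fun k => χ⁻¹ k * (F k - F (-k)) with hΦ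
  have h3 : 2 * ∑ k, χ⁻¹ k * F k = ∑ k, Φ k := by
    rw [two_mul]
    nth_rw 2 [h2]
    rw [hΦ]
    simp only [mul_sub, sum_sub_distrib]
    ring
  have h4 : ∑ k, Φ k = 2 * ∑ n ∈ oddTo (p - 1), Φ n := by
    apply sum_even p hp2
    · rw [hΦ]; simp
    · intro k
      rw [hΦ]
      simp only [neg_neg]
      rw [show χ⁻¹ (-k) = - χ⁻¹ k by rw [show -k = -1 * k by ring, map_mul, hodd']; ring]
      ring
  have h5 : ∀ n ∈ oddTo (p - 1), Φ n * (Real.pi / (2 * p)) =
      Complex.I * (χ⁻¹ (n : ZMod p) * (cw p n : ℂ)) := by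
    intro n hn
    simp only [oddTo, mem_filter, mem_Icc] at hn
    have h6 : F n - F (-n) = 2 * Complex.I *
        ((∑ a ∈ Icc 1 H, Real.sin (a * (2 * Real.pi * n / p)) : ℝ) : ℂ) := by
      rw [hF]
      simp only
      rw [← sum_sub_distrib, Complex.ofReal_sum, mul_sum]
      apply sum_congr rfl
      intro a _
      have e1 : (a : ZMod p) * (n : ZMod p) = ((a * n : ℤ) : ZMod p) := by push_cast; rfl
      have e2 : (a : ZMod p) * (-(n : ZMod p)) = ((-(a * n) : ℤ) : ZMod p) := by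
        push_cast; ring
      rw [e1, e2, hψ, ZMod.stdAddChar_coe, ZMod.stdAddChar_coe]
      push_cast
      rw [Complex.sin]
      have e3 : (2 * (Real.pi : ℂ) * Complex.I * (a * n) / p) =
          (a * (2 * Real.pi * n / p)) * Complex.I := by ring
      have e4 : (2 * (Real.pi : ℂ) * Complex.I * (-(a * n)) / p) =
          -(a * (2 * Real.pi * n / p)) * Complex.I := by ring
      rw [e3, e4]
      have hI : Complex.I * Complex.I = -1 := Complex.I_mul_I
      linear_combination (-1) * (Complex.exp (-(a * (2 * Real.pi * n / p)) * Complex.I) -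
        Complex.exp ((a * (2 * Real.pi * n / p)) * Complex.I)) * hI
    rw [sin_half_sum p n hp2 hn.2 (by omega)] at h6
    rw [hΦ]
    simp only
    rw [h6, cw]
    push_cast
    have hsin : (Complex.sin (Real.pi * n / (2 * p))) ≠ 0 := by
      have hx0 : 0 < Real.pi * n / (2 * p) := by
        have : (0 : ℝ) < n := by exact_mod_cast (by omega : 0 < n)
        have := Real.pi_pos
        positivity
      have hx1 : Real.pi * n / (2 * p) < Real.pi := by
        rw [div_lt_iff₀ (by positivity)]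
        have : (n : ℝ) < p := by exact_mod_cast (by omega : n < p)
        have := Real.pi_pos
        nlinarith
      have := (Real.sin_pos_of_pos_of_lt_pi hx0 hx1).ne'
      have h7 : (Real.sin (Real.pi * n / (2 * p)) : ℂ) ≠ 0 := by exact_mod_cast this
      push_cast at h7
      exact h7
    field_simp
  have h6 : 2 * ((∑ a ∈ Icc 1 H, χ (a : ZMod p)) * gaussSum χ⁻¹ ψ * (Real.pi / (2 * p))) =
      2 * (Complex.I * ∑ n ∈ oddTo (p - 1), χ⁻¹ (n : ZMod p) * (cw p n : ℂ)) := by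
    rw [h1, ← mul_assoc, h3, h4, mul_assoc, sum_mul, sum_congr rfl h5, ← mul_sum]
  exact mul_left_cancel₀ two_ne_zero h6

theorem half_sum_norm (p : ℕ) [hp : Fact p.Prime] (hp2 : p % 2 = 1) (χ : DirichletCharacter ℂ p)
    (hχ : χ.Odd) :
    Real.pi ^ 2 / (4 * p) * ‖∑ a ∈ Icc 1 ((p - 1) / 2), χ (a : ZMod p)‖ ^ 2 =
      ‖∑ n ∈ oddTo (p - 1), χ (n : ZMod p) * (cw p n : ℂ)‖ ^ 2 := by
  have hp0 : (0 : ℝ) < p := by exact_mod_cast hp.out.pos
  have h1 := half_sum_eq p hp2 χ hχ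
  have hχ1 : χ⁻¹ ≠ 1 := by
    intro h
    have h2 : χ = 1 := inv_eq_one.mp h
    rw [h2] at hχ
    unfold DirichletCharacter.Odd at hχ
    rw [MulChar.one_apply (isUnit_one.neg)] at hχ
    norm_num at hχ
  have h2 : ‖gaussSum χ⁻¹ (ZMod.stdAddChar : AddChar (ZMod p) ℂ)‖ ^ 2 = p := by
    have h3 := gaussSum_mul_gaussSum_eq_card hχ1 (ZMod.isPrimitive_stdAddChar p)
    rw [← star_gaussSum_eq, ZMod.card] at h3
    have h4 : ((‖gaussSum χ⁻¹ (ZMod.stdAddChar : AddChar (ZMod p) ℂ)‖ ^ 2 : ℝ) : ℂ) = p := by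
      push_cast
      rw [← Complex.mul_conj']
      exact h3
    exact_mod_cast h4
  have h3 : ‖∑ n ∈ oddTo (p - 1), χ⁻¹ (n : ZMod p) * (cw p n : ℂ)‖ =
      ‖∑ n ∈ oddTo (p - 1), χ (n : ZMod p) * (cw p n : ℂ)‖ := by
    rw [← RCLike.norm_conj (∑ n ∈ oddTo (p - 1), χ (n : ZMod p) * (cw p n : ℂ)), map_sum]
    congr 1
    apply sum_congr rfl
    intro n _
    rw [map_mul, Complex.conj_ofReal]
    congr 1
    exact (MulChar.star_apply' χ _).symm
  have h4 : ‖(∑ a ∈ Icc 1 ((p - 1) / 2), χ (a : ZMod p)) *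
      gaussSum χ⁻¹ ZMod.stdAddChar * (Real.pi / (2 * p))‖ =
      ‖Complex.I * ∑ n ∈ oddTo (p - 1), χ⁻¹ (n : ZMod p) * (cw p n : ℂ)‖ := by rw [h1]
  rw [norm_mul, norm_mul, norm_mul, Complex.norm_I, one_mul, h3] at h4
  rw [← h4, mul_pow, mul_pow, h2]
  have h5 : ‖(Real.pi / (2 * p) : ℂ)‖ = Real.pi / (2 * p) := by
    have : (Real.pi / (2 * p) : ℂ) = ((Real.pi / (2 * p) : ℝ) : ℂ) := by push_cast; rfl
    rw [this, Complex.norm_real, Real.norm_eq_abs, abs_of_nonneg]
    have := Real.pi_pos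
    positivity
  rw [h5]
  field_simp
  ring

end Pool.Agent.R361.AC
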