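import Mathlib
import Pool.Agent.R361.AC.Half

set_option autoImplicit false

/-! # Truncating the cotangent sum -/

namespace Pool.Agent.R361.AC

open Finset Filter Topology
open scoped ComplexConjugate

/-- Abel summation with decreasing weights -/
lemma abel (c : ℕ → ℂ) (w : ℕ → ℝ) (η : ℝ) (N n : ℕ) (hNn : N < n)
    (hw0 : ∀ k, N < k → k ≤ n → 0 ≤ w k) (hw : ∀ k, N < k → k + 1 ≤ n → w (k + 1) ≤ w k)
    (hM : ∀ k, N ≤ k → k ≤ n → ‖∑ i ∈ Icc 1 k, c i‖ ≤ η * k) :
    ‖∑ k ∈ Ioc N n, c k * w k‖ ≤ η * (∑ k ∈ Ioc N n, w k + 2 * N * w (N + 1)) := by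
  have key : ∀ m, N < m → m ≤ n →
      ‖(∑ k ∈ Ioc N m, c k * w k) - (∑ i ∈ Icc 1 m, c i) * w m‖ ≤
        η * (∑ k ∈ Ioc N m, w k - m * w m + 2 * N * w (N + 1)) := by
    intro m hm
    induction m, hm using Nat.le_induction with
    | base =>
      intro _
      have h1 : Ioc N (N + 1) = {N + 1} := by
        ext i; simp only [mem_Ioc, mem_singleton]; omega
      simp only [Nat.succ_eq_add_one, h1, sum_singleton]
      rw [sum_Icc_succ_top (by omega)]
      have h2 : c (N + 1) * (w (N + 1) : ℂ) - (∑ i ∈ Icc 1 N, c i + c (N + 1)) * (w (N + 1) : ℂ) =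
          -(∑ i ∈ Icc 1 N, c i) * (w (N + 1) : ℂ) := by ring
      rw [h2, norm_mul, norm_neg, Complex.norm_real, Real.norm_eq_abs,
        abs_of_nonneg (hw0 (N + 1) (by omega) (by omega))]
      have h3 := mul_le_mul_of_nonneg_right (hM N le_rfl hNn.le) (hw0 (N + 1) (by omega) (by omega))
      refine h3.trans (le_of_eq ?_)
      push_cast
      ring
    | succ m hm ih =>
      intro hmn
      have hm' : N < m := hm
      have h1 := ih (by omega)
      have h2 : (∑ k ∈ Ioc N (m + 1), c k * w k) - (∑ i ∈ Icc 1 (m + 1), c i) * w (m + 1) =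
          ((∑ k ∈ Ioc N m, c k * w k) - (∑ i ∈ Icc 1 m, c i) * w m) +
          (∑ i ∈ Icc 1 m, c i) * ((w m - w (m + 1) : ℝ) : ℂ) := by
        rw [sum_Ioc_succ_top (by omega), sum_Icc_succ_top (by omega)]
        push_cast
        ring
      rw [h2]
      refine (norm_add_le _ _).trans ?_
      have h3 : ‖(∑ i ∈ Icc 1 m, c i) * ((w m - w (m + 1) : ℝ) : ℂ)‖ ≤
          η * m * (w m - w (m + 1)) := by
        have h4 : 0 ≤ w m - w (m + 1) := by linarith [hw m hm' hmn]
        rw [norm_mul, Complex.norm_real, Real.norm_eq_abs, abs_of_nonneg h4]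
        exact mul_le_mul_of_nonneg_right (hM m hm'.le (by omega)) h4
      refine (add_le_add h1 h3).trans (le_of_eq ?_)
      rw [sum_Ioc_succ_top (by omega)]
      push_cast
      ring
  have h1 := key n hNn le_rfl
  have h2 : ‖(∑ i ∈ Icc 1 n, c i) * (w n : ℂ)‖ ≤ η * n * w n := by
    rw [norm_mul, Complex.norm_real, Real.norm_eq_abs, abs_of_nonneg (hw0 n hNn le_rfl)]
    exact mul_le_mul_of_nonneg_right (hM n hNn.le le_rfl) (hw0 n hNn le_rfl)
  calc ‖∑ k ∈ Ioc N n, c k * w k‖ =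
      ‖((∑ k ∈ Ioc N n, c k * w k) - (∑ i ∈ Icc 1 n, c i) * w n) +
        (∑ i ∈ Icc 1 n, c i) * w n‖ := by rw [sub_add_cancel]
    _ ≤ _ := (norm_add_le _ _).trans (add_le_add h1 h2)
    _ = _ := by ring

section cwlemmas

variable (p k : ℕ)

lemma cw_arg (hk : 0 < k) (hkp : k < p) :
    0 < Real.pi * k / (2 * p) ∧ Real.pi * k / (2 * p) < Real.pi / 2 := by
  have hp0 : (0 : ℝ) < p := by exact_mod_cast (by omega : 0 < p)
  have hk0 : (0 : ℝ) < k := by exact_mod_cast hk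
  have hkp' : (k : ℝ) < p := by exact_mod_cast hkp
  have hpi := Real.pi_pos
  refine ⟨by positivity, ?_⟩
  rw [div_lt_div_iff₀ (by positivity) (by norm_num)]
  nlinarith

lemma cw_nonneg (hk : 0 < k) (hkp : k < p) : 0 ≤ cw p k := by
  obtain ⟨h0, h1⟩ := cw_arg p k hk hkp
  unfold cw
  have hpi := Real.pi_pos
  have hs := Real.sin_pos_of_pos_of_lt_pi h0 (by linarith)
  have hc := Real.cos_pos_of_mem_Ioo ⟨by linarith, h1⟩
  positivity

lemma cw_le (hk : 0 < k) (hkp : k < p) : cw p k ≤ 1 / k := by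
  obtain ⟨h0, h1⟩ := cw_arg p k hk hkp
  unfold cw
  have hp0 : (0 : ℝ) < p := by exact_mod_cast (by omega : 0 < p)
  have hk0 : (0 : ℝ) < k := by exact_mod_cast hk
  have hpi := Real.pi_pos
  have hs := Real.sin_pos_of_pos_of_lt_pi h0 (by linarith)
  have hc := Real.cos_pos_of_mem_Ioo ⟨by linarith, h1⟩
  set x := Real.pi * k / (2 * p) with hx
  have h2 : x ≤ Real.sin x / Real.cos x := by
    rw [← Real.tan_eq_sin_div_cos]
    exact Real.le_tan h0.le h1
  rw [le_div_iff₀ hc] at h2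
  have h3 : Real.pi / (2 * p) = x / k := by rw [hx]; field_simp
  rw [h3]
  rw [div_mul_div_comm, div_le_div_iff₀ (by positivity) hk0]
  nlinarith

lemma cw_ge (hk : 0 < k) (hkp : k < p) : 1 / k - cw p k ≤ 2 * k / (p : ℝ) ^ 2 := by
  obtain ⟨h0, h1⟩ := cw_arg p k hk hkp
  unfold cw
  have hp0 : (0 : ℝ) < p := by exact_mod_cast (by omega : 0 < p)
  have hk0 : (0 : ℝ) < k := by exact_mod_cast hk
  have hpi := Real.pi_pos
  have hs := Real.sin_pos_of_pos_of_lt_pi h0 (by linarith)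
  have hc := Real.cos_pos_of_mem_Ioo ⟨by linarith, h1⟩
  set x := Real.pi * k / (2 * p) with hx
  have h2 : Real.sin x ≤ x := (Real.sin_lt h0).le
  have h3 : Real.pi / (2 * p) = x / k := by rw [hx]; field_simp
  have h4 := Real.one_sub_sq_div_two_le_cos (x := x)
  have h5 : Real.cos x ≤ x * (Real.cos x / Real.sin x) := by
    rw [← mul_div_assoc, le_div_iff₀ hs]
    nlinarith
  rw [h3]
  have h6 : 1 / k - x / k * (Real.cos x / Real.sin x) ≤ (x ^ 2 / 2) / k := by
    have : 1 / k - x / k * (Real.cos x / Real.sin x) =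
        (1 - x * (Real.cos x / Real.sin x)) / k := by field_simp
    rw [this]
    apply div_le_div_of_nonneg_right _ hk0.le
    linarith
  refine h6.trans ?_
  have h7 : x ^ 2 / 2 / k = (Real.pi ^ 2 / 8) * k / (p : ℝ) ^ 2 := by
    rw [hx]; field_simp; ring
  rw [h7]
  apply div_le_div_of_nonneg_right _ (by positivity)
  apply mul_le_mul_of_nonneg_right _ hk0.le
  have h8 := Real.pi_lt_d2
  nlinarith

lemma cw_anti (hk : 0 < k) (hkp : k + 1 < p) : cw p (k + 1) ≤ cw p k := by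
  obtain ⟨h0, h1⟩ := cw_arg p k hk (by omega)
  obtain ⟨h0', h1'⟩ := cw_arg p (k + 1) (by omega) hkp
  unfold cw
  have hp0 : (0 : ℝ) < p := by exact_mod_cast (by omega : 0 < p)
  have hpi := Real.pi_pos
  have hs := Real.sin_pos_of_pos_of_lt_pi h0 (by linarith)
  have hc := Real.cos_pos_of_mem_Ioo ⟨by linarith, h1⟩
  have hs' := Real.sin_pos_of_pos_of_lt_pi h0' (by linarith)
  have hc' := Real.cos_pos_of_mem_Ioo ⟨by linarith, h1'⟩
  set x := Real.pi * k / (2 * p) with hx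
  set x' := Real.pi * (k + 1 : ℕ) / (2 * p) with hx'
  have hle : x ≤ x' := by
    rw [hx, hx']
    push_cast
    apply div_le_div_of_nonneg_right _ (by positivity)
    nlinarith
  apply mul_le_mul_of_nonneg_left _ (by positivity)
  apply div_le_div₀ hc.le _ hs _
  · exact Real.cos_le_cos_of_nonneg_of_le_pi h0.le (by linarith) hle
  · exact Real.sin_le_sin_of_le_of_le_pi_div_two (by linarith) h1'.le hle

end cwlemmas

lemma sum_oddTo (t : ℕ) (f : ℕ → ℂ) :
    ∑ n ∈ oddTo t, f n = ∑ n ∈ Icc 1 t, (if n % 2 = 1 then f n else 0) := by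
  rw [oddTo, sum_filter]

/-- For all but few primes `p ≤ x` the cotangent sums of all odd characters are well approximated
by short sums. -/
theorem cot_approx (δ : ℝ) (hδ0 : 0 < δ) (hδ1 : δ < 1) :
    ∃ x0 : ℕ, ∀ x ≥ x0, 0 < Real.log x ∧ ∃ Exc : Finset ℕ, (#Exc : ℝ) ≤ (x : ℝ) ^ (3 / 4 : ℝ) ∧
      ∀ p, p.Prime → p ≤ x → x < p ^ 2 → p ∉ Exc → ∀ χ : DirichletCharacter ℂ p, χ ≠ 1 →
        ∀ N : ℕ, (x : ℝ) ^ δ ≤ N → (N : ℝ) ≤ (x : ℝ) ^ (1 / 4 : ℝ) →
        ‖∑ n ∈ oddTo (p - 1), χ (n : ZMod p) * (cw p n : ℂ) -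
          ∑ n ∈ oddTo N, χ (n : ZMod p) / n‖ ≤ 8 / (Real.log x) ^ 2 := by
  obtain ⟨x1, hx1⟩ := tail_few δ hδ0 hδ1
  have hlogt : Tendsto (fun x : ℕ => Real.log x) atTop atTop :=
    Real.tendsto_log_atTop.comp tendsto_natCast_atTop_atTop
  have e1 : ∀ᶠ x : ℕ in atTop, 3 ≤ Real.log x := hlogt.eventually_ge_atTop 3
  have hpl : ∀ (a : ℕ) (s : ℝ), 0 < s →
      ∀ᶠ x : ℕ in atTop, (Real.log x) ^ a ≤ (x : ℝ) ^ s := by
    intro a s hs
    have h1 := (isLittleO_log_rpow_rpow_atTop (a : ℝ) hs).bound (show (0 : ℝ) < 1 by norm_num)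
    have h2 := tendsto_natCast_atTop_atTop (R := ℝ) |>.eventually h1
    filter_upwards [h2, e1] with x hx hx1
    rw [Real.rpow_natCast, Real.norm_eq_abs, Real.norm_eq_abs, abs_of_nonneg (by positivity),
      abs_of_nonneg (by positivity), one_mul] at hx
    exact hx
  have e2 := hpl 2 (1 / 2) (by norm_num)
  have e3 := hpl 1 (1 / 8) (by norm_num)
  obtain ⟨x2, hx2⟩ := eventually_atTop.mp (e1.and (e2.and e3))
  refine ⟨max x1 x2, fun x hx => ?_⟩
  obtain ⟨f1, f2, f3⟩ := hx2 x (le_trans (le_max_right _ _) hx)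
  obtain ⟨Exc, hExc, hgood⟩ := hx1 x (le_trans (le_max_left _ _) hx)
  refine ⟨by linarith, Exc, hExc, ?_⟩
  intro p hp hpx hxp hpE χ hχ N hN1 hN2
  set L : ℝ := Real.log x with hL
  have hxpos : (0 : ℝ) < x := by
    have : 0 < x := by
      have := hp.pos
      omega
    exact_mod_cast this
  have hp0 : (0 : ℝ) < p := by exact_mod_cast hp.pos
  have hxp' : (x : ℝ) < (p : ℝ) ^ 2 := by exact_mod_cast hxp
  have hx12 : (x : ℝ) ^ (1 / 2 : ℝ) < p := by
    have h1 : ((x : ℝ) ^ (1 / 2 : ℝ)) ^ 2 = x := by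
      rw [← Real.rpow_natCast, ← Real.rpow_mul hxpos.le]; norm_num
    apply lt_of_pow_lt_pow_left₀ 2 hp0.le
    rw [h1]; exact hxp'
  have h14 : (x : ℝ) ^ (1 / 4 : ℝ) * (x : ℝ) ^ (1 / 4 : ℝ) = (x : ℝ) ^ (1 / 2 : ℝ) := by
    rw [← Real.rpow_add hxpos]; norm_num
  have h18 : (x : ℝ) ^ (1 / 8 : ℝ) * (x : ℝ) ^ (1 / 8 : ℝ) = (x : ℝ) ^ (1 / 4 : ℝ) := by
    rw [← Real.rpow_add hxpos]; norm_num
  have h8big : 3 ≤ (x : ℝ) ^ (1 / 8 : ℝ) := by rw [pow_one] at f3; linarith
  have h4big : 9 ≤ (x : ℝ) ^ (1 / 4 : ℝ) := by rw [← h18]; nlinarith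
  have hNp : N < p - 1 := by
    have h1 : (N : ℝ) + 1 < p := by nlinarith
    have h2 : N + 1 < p := by exact_mod_cast h1
    omega
  have hN0 : (0 : ℝ) < N := lt_of_lt_of_le (by positivity) hN1
  have hN0' : 0 < N := by exact_mod_cast hN0
  set c : ℕ → ℂ := fun n => if n % 2 = 1 then χ (n : ZMod p) else 0 with hc
  have hcn : ∀ n, ‖c n‖ ≤ 1 := by
    intro n
    simp only [hc]
    split_ifs
    · exact DirichletCharacter.norm_le_one χ _
    · simp
  have s1 : ∑ n ∈ oddTo (p - 1), χ (n : ZMod p) * (cw p n : ℂ) =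
      ∑ n ∈ Icc 1 (p - 1), c n * (cw p n : ℂ) := by
    rw [sum_oddTo]
    apply sum_congr rfl
    intro n _
    simp only [hc]
    split_ifs <;> simp
  have s2 : ∑ n ∈ oddTo N, χ (n : ZMod p) / n = ∑ n ∈ Icc 1 N, c n / n := by
    rw [sum_oddTo]
    apply sum_congr rfl
    intro n _
    simp only [hc]
    split_ifs <;> simp
  have s3 : ∑ n ∈ Icc 1 (p - 1), c n * (cw p n : ℂ) =
      ∑ n ∈ Icc 1 N, c n * (cw p n : ℂ) + ∑ n ∈ Ioc N (p - 1), c n * (cw p n : ℂ) := by
    rw [← sum_union]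
    · congr 1
      ext n
      simp only [mem_union, mem_Icc, mem_Ioc]
      omega
    · rw [Finset.disjoint_left]
      intro n hn hn'
      rw [mem_Icc] at hn
      rw [mem_Ioc] at hn'
      omega
  rw [s1, s2, s3]
  -- the head
  have hhead : ‖∑ n ∈ Icc 1 N, c n * (cw p n : ℂ) - ∑ n ∈ Icc 1 N, c n / n‖ ≤ 2 / L ^ 2 := by
    rw [← sum_sub_distrib]
    have h1 : ∀ n ∈ Icc 1 N, ‖c n * (cw p n : ℂ) - c n / n‖ ≤ 2 * N / (p : ℝ) ^ 2 := by
      intro n hn
      rw [mem_Icc] at hn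
      have h2 : c n * (cw p n : ℂ) - c n / n = c n * ((cw p n - 1 / n : ℝ) : ℂ) := by
        push_cast; ring
      rw [h2, norm_mul, Complex.norm_real, Real.norm_eq_abs, abs_sub_comm,
        abs_of_nonneg (sub_nonneg.mpr (cw_le p n (by omega) (by omega)))]
      have h3 := cw_ge p n (by omega) (by omega)
      calc ‖c n‖ * (1 / n - cw p n) ≤ 1 * (2 * n / (p : ℝ) ^ 2) := by
            apply mul_le_mul (hcn n) h3 _ zero_le_one
            exact sub_nonneg.mpr (cw_le p n (by omega) (by omega))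
        _ ≤ 2 * N / (p : ℝ) ^ 2 := by
            rw [one_mul]
            apply div_le_div_of_nonneg_right _ (by positivity)
            have : (n : ℝ) ≤ N := by exact_mod_cast hn.2
            linarith
    refine (norm_sum_le _ _).trans ((sum_le_sum h1).trans ?_)
    rw [sum_const, nsmul_eq_mul, Nat.card_Icc]
    have h2 : ((N + 1 - 1 : ℕ) : ℝ) = N := by simp
    rw [h2]
    have hL2 : 0 < L ^ 2 := by positivity
    rw [← mul_div_assoc, div_le_div_iff₀ (by positivity) hL2]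
    have h3 : (N : ℝ) * N ≤ (x : ℝ) ^ (1 / 2 : ℝ) := by
      rw [← h14]
      exact mul_le_mul hN2 hN2 hN0.le (by positivity)
    have h4 : (x : ℝ) ^ (1 / 2 : ℝ) * (x : ℝ) ^ (1 / 2 : ℝ) = x := by
      rw [← Real.rpow_add hxpos]; norm_num
    have h5 : (N : ℝ) * N * L ^ 2 ≤ x := by
      rw [← h4]
      exact mul_le_mul h3 f2 (by positivity) (by positivity)
    nlinarith
  have htail : ‖∑ n ∈ Ioc N (p - 1), c n * (cw p n : ℂ)‖ ≤ 6 / L ^ 2 := by
    have h1 := abel c (cw p) (3 / L ^ 3) N (p - 1) hNp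
      (fun k hk1 hk2 => cw_nonneg p k (by omega) (by omega))
      (fun k hk1 hk2 => cw_anti p k (by omega) (by omega)) ?_
    · refine h1.trans ?_
      have h2 : ∑ k ∈ Ioc N (p - 1), cw p k ≤ 1 + L := by
        have h3 : ∑ k ∈ Ioc N (p - 1), cw p k ≤ ∑ k ∈ Ioc N (p - 1), 1 / (k : ℝ) := by
          apply sum_le_sum
          intro k hk
          rw [mem_Ioc] at hk
          exact cw_le p k (by omega) (by omega)
        have h4 : ∑ k ∈ Ioc N (p - 1), 1 / (k : ℝ) ≤ ∑ k ∈ Icc 1 (p - 1), 1 / (k : ℝ) := by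
          apply sum_le_sum_of_subset_of_nonneg
          · intro k hk
            rw [mem_Ioc] at hk
            rw [mem_Icc]
            omega
          · intro k _ _
            positivity
        have h5 := harmonic_le_one_add_log (p - 1)
        rw [harmonic_eq_sum_Icc] at h5
        push_cast at h5
        have h6 : Real.log ((p - 1 : ℕ) : ℝ) ≤ L := by
          apply Real.log_le_log
          · have : 0 < p - 1 := by omega
            exact_mod_cast this
          · have : p - 1 ≤ x := by omega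
            exact_mod_cast this
        have h7 : ∑ k ∈ Icc 1 (p - 1), 1 / (k : ℝ) = ∑ k ∈ Icc 1 (p - 1), ((k : ℝ))⁻¹ := by
          simp [one_div]
        linarith
      have h3 : 2 * N * cw p (N + 1) ≤ 2 := by
        have h4 := cw_le p (N + 1) (by omega) (by omega)
        have h5 : 2 * (N : ℝ) * cw p (N + 1) ≤ 2 * N * (1 / ((N + 1 : ℕ) : ℝ)) :=
          mul_le_mul_of_nonneg_left h4 (by positivity)
        refine h5.trans ?_
        rw [mul_one_div, div_le_iff₀ (by positivity)]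
        push_cast
        linarith
      have h4 : 3 / L ^ 3 * (∑ k ∈ Ioc N (p - 1), cw p k + 2 * N * cw p (N + 1)) ≤
          3 / L ^ 3 * (2 * L) := by
        apply mul_le_mul_of_nonneg_left _ (by positivity)
        linarith
      refine h4.trans (le_of_eq ?_)
      have hL0 : L ≠ 0 := by linarith
      field_simp
      norm_num
    · intro k hk1 hk2
      have h2 := hgood p hp hpx hpE χ hχ k ?_ (by omega)
      · rw [sum_oddTo] at h2
        refine h2.trans (le_of_eq ?_)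
        ring
      · have : (N : ℝ) ≤ k := by exact_mod_cast hk1
        linarith
  have h1 : ∑ n ∈ Icc 1 N, c n * (cw p n : ℂ) + ∑ n ∈ Ioc N (p - 1), c n * (cw p n : ℂ) -
      ∑ n ∈ Icc 1 N, c n / n = (∑ n ∈ Icc 1 N, c n * (cw p n : ℂ) - ∑ n ∈ Icc 1 N, c n / n) +
      ∑ n ∈ Ioc N (p - 1), c n * (cw p n : ℂ) := by ring
  rw [h1]
  refine (norm_add_le _ _).trans ((add_le_add hhead htail).trans (le_of_eq ?_))
  ring

end Pool.Agent.R361.AC
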