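import Mathlib

set_option autoImplicit false

/-! # Equidistribution of patterns, as an upper bound -/

namespace Pool.Agent.R361.AC

open Finset
open scoped ComplexConjugate

lemma root_sum (d : ℕ) (hd : 0 < d) (z x : ℂ) (hz : z = 0 ∨ z ^ d = 1) (hx : x ^ d = 1) :
    ∑ j ∈ range d, (z * conj x) ^ j = ((if z = 0 then 1 else if z = x then (d : ℝ) else 0 : ℝ) : ℂ) := by
  have hxn : ‖x‖ = 1 := by
    have : ‖x‖ ^ d = 1 := by rw [← norm_pow, hx, norm_one]
    exact (pow_eq_one_iff_of_nonneg (norm_nonneg x) hd.ne').mp this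
  have hxx : x * conj x = 1 := by
    rw [Complex.mul_conj', hxn]; norm_num
  rcases hz with hz | hz
  · subst hz
    rw [if_pos rfl]
    rw [zero_mul]
    have : range d = insert 0 ((range d).erase 0) := by
      rw [insert_erase]; simp; exact hd
    rw [this, sum_insert (by simp), pow_zero, sum_eq_zero]
    · simp
    · intro j hj
      rw [mem_erase] at hj
      exact zero_pow hj.1
  · have hz0 : z ≠ 0 := by
      rintro rfl
      rw [zero_pow hd.ne'] at hz
      exact zero_ne_one hz
    rw [if_neg hz0]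
    split_ifs with h
    · rw [h, hxx]; simp
    · have h1 : z * conj x ≠ 1 := by
        intro h1
        apply h
        calc z = z * (x * conj x) := by rw [hxx, mul_one]
          _ = x * (z * conj x) := by ring
          _ = x := by rw [h1, mul_one]
      have h2 : (z * conj x) ^ d = 1 := by
        rw [mul_pow, hz, ← map_pow, hx, map_one, one_mul]
      have h3 := geom_sum_mul (z * conj x) d
      rw [h2, sub_self] at h3
      rcases mul_eq_zero.mp h3 with h4 | h4
      · rw [h4]; simp
      · exact absurd (sub_eq_zero.mp h4) h1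

open Classical in
theorem equi {ι : Type*} (A : Finset ι) (W : ι → ℝ) (hW : ∀ a, 0 ≤ W a) (Ψ : ι → ℕ →*₀ ℂ)
    (d : ℕ) (hd : 0 < d) (s : Finset ℕ)
    (hΨ : ∀ a, ∀ q ∈ s, Ψ a q = 0 ∨ (Ψ a q) ^ d = 1) (e : ℝ)
    (hcorr : ∀ v : s → ℕ, (∀ q, v q < d) → (∃ q, v q ≠ 0) →
      ‖∑ a ∈ A, (W a : ℂ) * Ψ a (∏ q : s, (q : ℕ) ^ (v q))‖ ≤ e)
    (x : s → ℂ) (hx : ∀ q, (x q) ^ d = 1) :
    (∑ a ∈ A.filter (fun a => ∀ q : s, Ψ a q = x q), W a) * (d : ℝ) ^ #s ≤
      (∑ a ∈ A, W a) + (d : ℝ) ^ #s * |e| := by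
  set fac : ι → s → ℝ := fun a q =>
    if Ψ a q = 0 then 1 else if Ψ a q = x q then (d : ℝ) else 0 with hfac
  have hfac0 : ∀ a q, 0 ≤ fac a q := by
    intro a q
    simp only [hfac]
    split_ifs <;> positivity
  have hxne : ∀ q, x q ≠ 0 := by
    intro q hq
    have := hx q
    rw [hq, zero_pow hd.ne'] at this
    exact zero_ne_one this
  have hxn : ∀ q, ‖x q‖ = 1 := by
    intro q
    have : ‖x q‖ ^ d = 1 := by rw [← norm_pow, hx, norm_one]
    exact (pow_eq_one_iff_of_nonneg (norm_nonneg _) hd.ne').mp this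
  have h1 : (∑ a ∈ A.filter (fun a => ∀ q : s, Ψ a q = x q), W a) * (d : ℝ) ^ #s ≤
      ∑ a ∈ A, W a * ∏ q, fac a q := by
    rw [sum_mul]
    have hmid : ∑ a ∈ A.filter (fun a => ∀ q : s, Ψ a q = x q), W a * (d : ℝ) ^ #s =
        ∑ a ∈ A.filter (fun a => ∀ q : s, Ψ a q = x q), W a * ∏ q, fac a q := by
      apply sum_congr rfl
      intro a ha
      rw [mem_filter] at ha
      congr 1
      have : ∀ q : s, fac a q = d := by
        intro q
        simp only [hfac]
        rw [if_neg, if_pos (ha.2 q)]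
        rw [ha.2 q]
        exact hxne q
      rw [prod_congr rfl fun q _ => this q, prod_const, card_univ, Fintype.card_coe]
    rw [hmid]
    apply sum_le_sum_of_subset_of_nonneg
    · exact filter_subset _ A
    · intro a _ _
      exact mul_nonneg (hW a) (prod_nonneg fun q _ => hfac0 a q)
  have h2 : ((∑ a ∈ A, W a * ∏ q, fac a q : ℝ) : ℂ) =
      ∑ v ∈ Fintype.piFinset (fun _ : s => range d), (∏ q, conj (x q) ^ (v q)) *
        ∑ a ∈ A, (W a : ℂ) * Ψ a (∏ q : s, (q : ℕ) ^ (v q)) := by
    push_cast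
    have h3 : ∀ a ∈ A, (W a : ℂ) * ∏ q, (fac a q : ℂ) =
        ∑ v ∈ Fintype.piFinset (fun _ : s => range d), (∏ q, conj (x q) ^ (v q)) *
          ((W a : ℂ) * Ψ a (∏ q : s, (q : ℕ) ^ (v q))) := by
      intro a _
      have h4 : ∀ q : s, (fac a q : ℂ) = ∑ j ∈ range d, (Ψ a q * conj (x q)) ^ j := by
        intro q
        rw [root_sum d hd (Ψ a q) (x q) (hΨ a q q.2) (hx q)]
      rw [prod_congr rfl fun q _ => h4 q, Finset.prod_univ_sum, mul_sum]
      apply sum_congr rfl
      intro v _
      simp only [mul_pow]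
      rw [prod_mul_distrib, map_prod]
      simp only [map_pow]
      ring
    rw [sum_congr rfl h3, sum_comm]
    apply sum_congr rfl
    intro v _
    rw [mul_sum]
  have h5 : ∑ a ∈ A, W a * ∏ q, fac a q = ‖((∑ a ∈ A, W a * ∏ q, fac a q : ℝ) : ℂ)‖ := by
    rw [Complex.norm_real, Real.norm_eq_abs, abs_of_nonneg]
    exact sum_nonneg fun a _ => mul_nonneg (hW a) (prod_nonneg fun q _ => hfac0 a q)
  have hWs : 0 ≤ ∑ a ∈ A, W a := sum_nonneg fun a _ => hW a
  have hmem0 : (0 : s → ℕ) ∈ Fintype.piFinset (fun _ : s => range d) := by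
    rw [Fintype.mem_piFinset]
    intro q
    simpa using hd
  have hxv : ∀ v : s → ℕ, ‖∏ q, conj (x q) ^ (v q)‖ = 1 := by
    intro v
    rw [norm_prod]
    apply prod_eq_one
    intro q _
    rw [norm_pow, RCLike.norm_conj, hxn, one_pow]
  refine h1.trans ?_
  rw [h5, h2, ← add_sum_erase _ _ hmem0]
  refine (norm_add_le _ _).trans (add_le_add ?_ ?_)
  · rw [norm_mul, hxv, one_mul]
    simp only [Pi.zero_apply, pow_zero, prod_const_one, map_one, mul_one]
    refine (norm_sum_le _ _).trans (sum_le_sum fun a _ => ?_)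
    rw [Complex.norm_real, Real.norm_eq_abs, abs_of_nonneg (hW a)]
  · refine (norm_sum_le _ _).trans ?_
    calc ∑ v ∈ (Fintype.piFinset (fun _ : s => range d)).erase 0,
          ‖(∏ q, conj (x q) ^ (v q)) * ∑ a ∈ A, (W a : ℂ) * Ψ a (∏ q : s, (q : ℕ) ^ (v q))‖
        ≤ ∑ v ∈ (Fintype.piFinset (fun _ : s => range d)).erase 0, |e| := by
          apply sum_le_sum
          intro v hv
          rw [mem_erase, Fintype.mem_piFinset] at hv
          rw [norm_mul, hxv, one_mul]
          refine (hcorr v (fun q => by simpa using hv.2 q) ?_).trans (le_abs_self e)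
          by_contra hcon
          push Not at hcon
          exact hv.1 (funext hcon)
      _ = #((Fintype.piFinset (fun _ : s => range d)).erase 0) * |e| := by
          rw [sum_const, nsmul_eq_mul]
      _ ≤ (d : ℝ) ^ #s * |e| := by
          apply mul_le_mul_of_nonneg_right _ (abs_nonneg e)
          have : #((Fintype.piFinset (fun _ : s => range d)).erase 0) ≤ d ^ #s := by
            refine (card_le_card (erase_subset _ _)).trans ?_
            rw [Fintype.card_piFinset]
            simp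
          exact_mod_cast this

end Pool.Agent.R361.AC
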