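import Mathlib
import Pool.Agent.H510R2.Div

set_option autoImplicit false

/-! # Weighted mean squares of short Dirichlet sums -/

namespace Pool.Agent.R361.AC

open Finset
open scoped ComplexConjugate

lemma meansq {ι : Type*} (A : Finset ι) (W : ι → ℝ) (hW : ∀ a, 0 ≤ W a) (Ψ : ι → ℕ → ℂ)
    (hb : ∀ a n, ‖Ψ a n‖ ≤ 1) (S : Finset ℕ) (e : ℝ) (he : 0 ≤ e)
    (hcorr : ∀ n ∈ S, ∀ n' ∈ S, ¬ IsSquare (n * n') →
      ‖∑ a ∈ A, (W a : ℂ) * Ψ a n * conj (Ψ a n')‖ ≤ e) :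
    ∑ a ∈ A, W a * ‖∑ n ∈ S, Ψ a n / n‖ ^ 2 ≤
      (∑ n ∈ S, ∑ n' ∈ S, if IsSquare (n * n') then 1 / ((n : ℝ) * n') else 0) * ∑ a ∈ A, W a +
      (∑ n ∈ S, 1 / (n : ℝ)) ^ 2 * e := by
  classical
  have hWs : 0 ≤ ∑ a ∈ A, W a := sum_nonneg fun a _ => hW a
  have h1 : ((∑ a ∈ A, W a * ‖∑ n ∈ S, Ψ a n / n‖ ^ 2 : ℝ) : ℂ) =
      ∑ n ∈ S, ∑ n' ∈ S, (1 / ((n : ℂ) * n')) * ∑ a ∈ A, (W a : ℂ) * Ψ a n * conj (Ψ a n') := by
    push_cast
    have h2 : ∀ a ∈ A, (W a : ℂ) * (‖∑ n ∈ S, Ψ a n / n‖ : ℂ) ^ 2 =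
        ∑ n ∈ S, ∑ n' ∈ S, (1 / ((n : ℂ) * n')) * ((W a : ℂ) * Ψ a n * conj (Ψ a n')) := by
      intro a _
      rw [← Complex.mul_conj', map_sum, sum_mul_sum, mul_sum]
      apply sum_congr rfl
      intro n _
      rw [mul_sum]
      apply sum_congr rfl
      intro n' _
      rw [map_div₀, Complex.conj_natCast]
      rw [div_mul_div_comm, one_div]
      ring
    rw [sum_congr rfl h2, sum_comm]
    apply sum_congr rfl
    intro n _
    rw [sum_comm]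
    apply sum_congr rfl
    intro n' _
    rw [mul_sum]
  have h3 : ‖((∑ a ∈ A, W a * ‖∑ n ∈ S, Ψ a n / n‖ ^ 2 : ℝ) : ℂ)‖ =
      ∑ a ∈ A, W a * ‖∑ n ∈ S, Ψ a n / n‖ ^ 2 := by
    rw [Complex.norm_real, Real.norm_eq_abs, abs_of_nonneg]
    exact sum_nonneg fun a _ => mul_nonneg (hW a) (sq_nonneg _)
  rw [← h3, h1]
  have h4 : ∀ n ∈ S, ∀ n' ∈ S,
      ‖(1 / ((n : ℂ) * n')) * ∑ a ∈ A, (W a : ℂ) * Ψ a n * conj (Ψ a n')‖ ≤
      (if IsSquare (n * n') then 1 / ((n : ℝ) * n') else 0) * ∑ a ∈ A, W a +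
        1 / (n : ℝ) * (1 / (n' : ℝ)) * e := by
    intro n hn n' hn'
    have hnn : (0 : ℝ) ≤ 1 / ((n : ℝ) * n') := by positivity
    have e1 : ‖(1 / ((n : ℂ) * n'))‖ = 1 / ((n : ℝ) * n') := by
      rw [norm_div, norm_one, norm_mul, Complex.norm_natCast, Complex.norm_natCast]
    rw [norm_mul, e1]
    have e2 : 1 / (n : ℝ) * (1 / (n' : ℝ)) = 1 / ((n : ℝ) * n') := by
      rw [one_div_mul_one_div]
    rw [e2]
    split_ifs with hs
    · have : ‖∑ a ∈ A, (W a : ℂ) * Ψ a n * conj (Ψ a n')‖ ≤ ∑ a ∈ A, W a := by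
        refine (norm_sum_le _ _).trans (sum_le_sum fun a _ => ?_)
        rw [norm_mul, norm_mul, Complex.norm_real, Real.norm_eq_abs, abs_of_nonneg (hW a),
          RCLike.norm_conj]
        calc W a * ‖Ψ a n‖ * ‖Ψ a n'‖ ≤ W a * 1 * 1 := by
              gcongr
              · exact mul_nonneg (hW a) zero_le_one
              · exact hW a
              · exact hb a n
              · exact hb a n'
          _ = W a := by ring
      nlinarith [mul_le_mul_of_nonneg_left this hnn, mul_nonneg hnn he]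
    · nlinarith [mul_le_mul_of_nonneg_left (hcorr n hn n' hn' hs) hnn]
  calc ‖∑ n ∈ S, ∑ n' ∈ S, (1 / ((n : ℂ) * n')) * ∑ a ∈ A, (W a : ℂ) * Ψ a n * conj (Ψ a n')‖
      ≤ ∑ n ∈ S, ∑ n' ∈ S,
        ‖(1 / ((n : ℂ) * n')) * ∑ a ∈ A, (W a : ℂ) * Ψ a n * conj (Ψ a n')‖ := by
        refine (norm_sum_le _ _).trans (sum_le_sum fun n _ => norm_sum_le _ _)
    _ ≤ ∑ n ∈ S, ∑ n' ∈ S, ((if IsSquare (n * n') then 1 / ((n : ℝ) * n') else 0) *
          ∑ a ∈ A, W a + 1 / (n : ℝ) * (1 / (n' : ℝ)) * e) :=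
        sum_le_sum fun n hn => sum_le_sum fun n' hn' => h4 n hn n' hn'
    _ = _ := by
        simp only [sum_add_distrib, ← sum_mul]
        congr 1
        rw [sq, sum_mul_sum]

/-- pairs whose product is a square -/
lemma sqpairs (S : Finset ℕ) (y N : ℕ) (hS : ∀ n ∈ S, 1 ≤ n ∧ n ≤ N)
    (hy : ∀ n ∈ S, ∀ n' ∈ S, ∀ m, n * n' = m * m → y < m) :
    (∑ n ∈ S, ∑ n' ∈ S, if IsSquare (n * n') then 1 / ((n : ℝ) * n') else 0) ≤
      ∑ m ∈ Ioc y N, ((m * m).divisors.card : ℝ) / ((m : ℝ) * m) := by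
  classical
  have h1 : (∑ n ∈ S, ∑ n' ∈ S, if IsSquare (n * n') then 1 / ((n : ℝ) * n') else 0) =
      ∑ x ∈ (S ×ˢ S).filter (fun x => IsSquare (x.1 * x.2)), 1 / ((x.1 : ℝ) * x.2) := by
    rw [sum_filter, sum_product]
  have h2 : ∑ m ∈ Ioc y N, ((m * m).divisors.card : ℝ) / ((m : ℝ) * m) =
      ∑ z ∈ (Ioc y N).sigma (fun m => (m * m).divisors), 1 / ((z.1 : ℝ) * z.1) := by
    rw [sum_sigma]
    apply sum_congr rfl
    intro m _
    simp only
    rw [sum_const, nsmul_eq_mul]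
    ring
  rw [h1, h2]
  set f : ℕ × ℕ → (_ : ℕ) × ℕ := fun x => ⟨Nat.sqrt (x.1 * x.2), x.1⟩ with hf
  have hsq : ∀ x ∈ (S ×ˢ S).filter (fun x => IsSquare (x.1 * x.2)),
      Nat.sqrt (x.1 * x.2) * Nat.sqrt (x.1 * x.2) = x.1 * x.2 := by
    intro x hx
    rw [mem_filter] at hx
    obtain ⟨m, hm⟩ := hx.2
    rw [hm, Nat.sqrt_eq]
  have hinj : Set.InjOn f ((S ×ˢ S).filter (fun x => IsSquare (x.1 * x.2)) : Set (ℕ × ℕ)) := by
    intro x hx x' hx' hxx
    have e1 := hsq x hx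
    have e2 := hsq x' hx'
    simp only [hf, Sigma.mk.injEq] at hxx
    obtain ⟨e3, e4⟩ := hxx
    have e4' : x.1 = x'.1 := by simpa using e4
    rw [e3] at e1
    have e5 : x.1 * x.2 = x'.1 * x'.2 := e1.symm.trans e2
    rw [mem_coe, mem_filter, mem_product] at hx'
    have h0 : 0 < x'.1 := (hS _ hx'.1.1).1
    rw [e4'] at e5
    have := Nat.eq_of_mul_eq_mul_left h0 e5
    exact Prod.ext e4' this
  rw [show (∑ x ∈ (S ×ˢ S).filter (fun x => IsSquare (x.1 * x.2)), 1 / ((x.1 : ℝ) * x.2)) =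
    ∑ z ∈ ((S ×ˢ S).filter (fun x => IsSquare (x.1 * x.2))).image f,
      1 / ((z.1 : ℝ) * z.1) from ?_]
  · apply sum_le_sum_of_subset_of_nonneg
    · intro z hz
      rw [mem_image] at hz
      obtain ⟨x, hx, rfl⟩ := hz
      have e1 := hsq x hx
      rw [mem_filter, mem_product] at hx
      have hx1 := hS _ hx.1.1
      have hx2 := hS _ hx.1.2
      rw [mem_sigma, mem_Ioc, Nat.mem_divisors]
      refine ⟨⟨hy _ hx.1.1 _ hx.1.2 _ e1.symm, ?_⟩, ?_, ?_⟩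
      · simp only [hf]
        by_contra hcon
        push Not at hcon
        have : N * N < Nat.sqrt (x.1 * x.2) * Nat.sqrt (x.1 * x.2) := by nlinarith
        rw [e1] at this
        have h3 : x.1 * x.2 ≤ N * N := Nat.mul_le_mul hx1.2 hx2.2
        omega
      · simp only [hf]
        rw [e1]
        exact dvd_mul_right _ _
      · simp only [hf]
        rw [e1]
        have := Nat.mul_pos hx1.1 hx2.1
        omega
    · intro z _ _
      positivity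
  · rw [sum_image (fun x hx x' hx' h => hinj hx hx' h)]
    apply sum_congr rfl
    intro x hx
    have e1 := hsq x hx
    simp only [hf]
    have : ((Nat.sqrt (x.1 * x.2) : ℝ) * (Nat.sqrt (x.1 * x.2) : ℝ)) = (x.1 : ℝ) * x.2 := by
      exact_mod_cast e1
    rw [this]

lemma summable_tausq : Summable (fun m : ℕ => ((m * m).divisors.card : ℝ) / ((m : ℝ) * m)) := by
  obtain ⟨C, hC, h⟩ := Pool.Agent.H510R2.divisor_bound (1 / 4) (by norm_num)
  have h1 : Summable (fun m : ℕ => C * (1 / (m : ℝ) ^ (3 / 2 : ℝ))) :=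
    (Real.summable_one_div_nat_rpow.mpr (by norm_num)).mul_left C
  refine Summable.of_nonneg_of_le (fun m => by positivity) (fun m => ?_) h1
  rcases Nat.eq_zero_or_pos m with rfl | hm
  · simp only [Nat.cast_zero, mul_zero, div_zero]
    positivity
  · have hm0 : (0 : ℝ) < m := by exact_mod_cast hm
    have h2 := h (m * m) (Nat.mul_pos hm hm)
    push_cast at h2
    have h3 : ((m : ℝ) * m) ^ (1 / 4 : ℝ) = (m : ℝ) ^ (1 / 2 : ℝ) := by
      rw [← sq, ← Real.rpow_natCast, ← Real.rpow_mul hm0.le]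
      norm_num
    rw [h3] at h2
    calc ((m * m).divisors.card : ℝ) / ((m : ℝ) * m) ≤ C * (m : ℝ) ^ (1 / 2 : ℝ) / ((m : ℝ) * m) := by
          gcongr
      _ = C * (1 / (m : ℝ) ^ (3 / 2 : ℝ)) := by
          have : (m : ℝ) * m = (m : ℝ) ^ (1 / 2 : ℝ) * (m : ℝ) ^ (3 / 2 : ℝ) := by
            rw [← Real.rpow_add hm0]
            norm_num
            ring
          rw [this]
          field_simp

/-- the tail of `∑ τ(m²)/m²` -/
lemma tausq_tail (δ : ℝ) (hδ : 0 < δ) : ∃ y0 : ℕ, ∀ y ≥ y0, ∀ N : ℕ,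
    ∑ m ∈ Ioc y N, ((m * m).divisors.card : ℝ) / ((m : ℝ) * m) ≤ δ := by
  have hs := summable_tausq
  obtain ⟨s, hs⟩ := summable_iff_vanishing_norm.mp hs δ hδ
  refine ⟨s.sup id, fun y hy N => ?_⟩
  have hd : Disjoint (Ioc y N) s := by
    rw [disjoint_left]
    intro m hm hms
    have : m ≤ s.sup id := le_sup (f := id) hms
    rw [mem_Ioc] at hm
    omega
  have := hs _ hd
  rw [Real.norm_eq_abs] at this
  exact (le_abs_self _).trans this.le

end Pool.Agent.R361.AC
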