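import Mathlib

set_option autoImplicit false

/-! # Smooth parts and Euler products, uniformly -/

namespace Pool.Agent.R361.AC

open Finset Filter Topology

open Classical in
theorem smooth_approx (s : Finset ℕ) (hs : ∀ p ∈ s, p.Prime) (δ : ℝ) (hδ : 0 < δ) :
    ∃ N0 : ℕ, ∀ N ≥ N0, ∀ f : ℕ →* ℂ, (∀ n, ‖f n‖ ≤ 1 / (n : ℝ)) →
      ‖∑ n ∈ (Icc 1 N).filter (fun n => n ∈ Nat.factoredNumbers s), f n -
        ∏ p ∈ s, (1 - f p)⁻¹‖ ≤ δ := by
  set F := Nat.factoredNumbers s with hF
  let g0 : ℕ →* ℝ :=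
    { toFun := fun n => (n : ℝ)⁻¹
      map_one' := by simp
      map_mul' := fun a b => by push_cast; rw [mul_inv] }
  have hg0 : ∀ {p : ℕ}, p.Prime → ‖g0 p‖ < 1 := by
    intro p hp
    have h2 : (1 : ℝ) < p := by exact_mod_cast hp.one_lt
    change ‖(p : ℝ)⁻¹‖ < 1
    rw [norm_inv, Real.norm_natCast]
    exact inv_lt_one_of_one_lt₀ h2
  have hg := (EulerProduct.summable_and_hasSum_factoredNumbers_prod_filter_prime_geometric
    (f := g0) hg0 s).1
  set g : ℕ → ℝ := Set.indicator F (fun n => (n : ℝ)⁻¹) with hgdef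
  have hgs : Summable g := by
    have h1 : (fun m : F => ‖g0 m‖) = (fun n : ℕ => (n : ℝ)⁻¹) ∘ (fun m : F => (m : ℕ)) := by
      funext m
      change ‖((m : ℕ) : ℝ)⁻¹‖ = _
      rw [norm_inv, Real.norm_natCast]
      rfl
    have hg' : Summable (fun m : F => ‖g0 m‖) := hg
    rw [h1] at hg'
    exact summable_subtype_iff_indicator.mp hg'
  have ht := tendsto_sum_nat_add g
  have hev : ∀ᶠ i in atTop, ∑' k, g (k + i) < δ := ht.eventually_lt_const hδ
  obtain ⟨N0, hN0⟩ := eventually_atTop.mp hev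
  refine ⟨N0, fun N hN f hf => ?_⟩
  have hf1 : ∀ {p : ℕ}, p.Prime → ‖f p‖ < 1 := by
    intro p hp
    have h2 : (1 : ℝ) < p := by exact_mod_cast hp.one_lt
    refine (hf p).trans_lt ?_
    rw [one_div]
    exact inv_lt_one_of_one_lt₀ h2
  have h1 := (EulerProduct.summable_and_hasSum_factoredNumbers_prod_filter_prime_geometric
    (f := f) hf1 s).2
  have hsf : (s.filter Nat.Prime) = s := filter_true_of_mem hs
  rw [hsf] at h1
  have h2 : HasSum (Set.indicator F (fun n => f n)) (∏ p ∈ s, (1 - f p)⁻¹) :=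
    hasSum_subtype_iff_indicator.mp h1
  have h3 : ∑ n ∈ (Icc 1 N).filter (fun n => n ∈ F), f n =
      ∑ n ∈ range (N + 1), Set.indicator F (fun n => f n) n := by
    rw [sum_filter]
    have : range (N + 1) = insert 0 (Icc 1 N) := by
      ext n; simp; omega
    rw [this, sum_insert (by simp)]
    have h0 : Set.indicator F (fun n => f n) 0 = 0 := by
      apply Set.indicator_of_notMem
      intro h
      exact h.1 rfl
    rw [h0, zero_add]
    apply sum_congr rfl
    intro n _
    rw [Set.indicator_apply]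
  rw [h3]
  have h4 := h2.summable.sum_add_tsum_nat_add (N + 1)
  rw [h2.tsum_eq] at h4
  have h5 : ∑ n ∈ range (N + 1), Set.indicator F (fun n => f n) n - ∏ p ∈ s, (1 - f p)⁻¹ =
      - ∑' i, Set.indicator F (fun n => f n) (i + (N + 1)) := by
    rw [← h4]; ring
  rw [h5, norm_neg]
  have hgs' : Summable (fun i => g (i + (N + 1))) := (summable_nat_add_iff (N + 1)).mpr hgs
  have h6 : ‖∑' i, Set.indicator F (fun n => f n) (i + (N + 1))‖ ≤ ∑' i, g (i + (N + 1)) := by
    apply tsum_of_norm_bounded hgs'.hasSum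
    intro i
    rw [hgdef, Set.indicator_apply, Set.indicator_apply]
    split_ifs
    · rw [← one_div]
      exact hf _
    · simp
  exact h6.trans (hN0 (N + 1) (by omega)).le

end Pool.Agent.R361.AC
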