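import Mathlib
import Pool.Agent.R361.AC.Mean
import Pool.Agent.R361.AC.Smooth
import Pool.Agent.R361.AC.Anti
import Pool.Agent.R361.AC.Equi

set_option autoImplicit false

/-! # Preparations for the anti-concentration theorem -/

namespace Pool.Agent.R361.AC

open Finset Filter Topology
open scoped ComplexConjugate

lemma isSquare_of_even (n : ℕ) (hn : n ≠ 0) (h : ∀ q, q.Prime → Even (n.factorization q)) :
    IsSquare n := by
  obtain ⟨a, b, hab, ha⟩ := Nat.sq_mul_squarefree n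
  have hb : b ≠ 0 := by rintro rfl; simp at hab; exact hn hab.symm
  have ha0 : a ≠ 0 := ha.ne_zero
  have ha1 : a = 1 := by
    by_contra hcon
    obtain ⟨q, hq, hqa⟩ := Nat.exists_prime_and_dvd hcon
    have h1 := h q hq
    rw [← hab, Nat.factorization_mul (pow_ne_zero 2 hb) ha0, Nat.factorization_pow] at h1
    simp only [Finsupp.add_apply, Finsupp.smul_apply, smul_eq_mul] at h1
    rw [Nat.factorization_eq_one_of_squarefree ha hq hqa] at h1
    rw [Nat.even_add_one] at h1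
    exact h1 (even_two_mul _)
  rw [ha1, mul_one] at hab
  exact ⟨b, by rw [← hab]; ring⟩

lemma norm_le_one (Ψ : ℕ →*₀ ℂ) (d : ℕ) (hd : 0 < d)
    (hΨ : ∀ q, q.Prime → Ψ q = 0 ∨ (Ψ q) ^ d = 1) (n : ℕ) : ‖Ψ n‖ ≤ 1 := by
  induction n using induction_on_primes with
  | zero => rw [map_zero]; simp
  | one => rw [map_one]; simp
  | prime_mul p a hp ih =>
    rw [map_mul, norm_mul]
    have : ‖Ψ p‖ ≤ 1 := by
      rcases hΨ p hp with h | h
      · rw [h]; simp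
      · have : ‖Ψ p‖ ^ d = 1 := by rw [← norm_pow, h, norm_one]
        exact ((pow_eq_one_iff_of_nonneg (norm_nonneg _) hd.ne').mp this).le
    calc ‖Ψ p‖ * ‖Ψ a‖ ≤ 1 * 1 := mul_le_mul this ih (norm_nonneg _) zero_le_one
      _ = 1 := one_mul 1

lemma zero_of_not_coprime (Ψ : ℕ →*₀ ℂ) (Q : ℕ) (hΨQ : ∀ q, q.Prime → q ∣ Q → Ψ q = 0) (n : ℕ)
    (hn : ¬ n.Coprime Q) : Ψ n = 0 := by
  rw [Nat.Prime.not_coprime_iff_dvd] at hn
  obtain ⟨q, hq, ⟨k, hk⟩, hqQ⟩ := hn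
  rw [hk, map_mul, hΨQ q hq hqQ, zero_mul]

lemma sum_inv_le (N : ℕ) (S : Finset ℕ) (hS : S ⊆ Icc 1 N) :
    ∑ n ∈ S, 1 / (n : ℝ) ≤ 1 + Real.log N := by
  have h1 := harmonic_le_one_add_log N
  rw [harmonic_eq_sum_Icc] at h1
  push_cast at h1
  refine le_trans (sum_le_sum_of_subset_of_nonneg hS fun n _ _ => by positivity) ?_
  simpa [one_div] using h1

/-- the mean square of a sum over `S`, all of whose square products exceed `y` -/
lemma ms_bound {ι : Type*} (h : ℕ) (hh : 0 < h) (Q : ℕ)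
    (Ψ : ι → ℕ →*₀ ℂ) (hΨ : ∀ a q, q.Prime → Ψ a q = 0 ∨ (Ψ a q) ^ (2 * h) = 1)
    (A : Finset ι) (W : ι → ℝ) (hW : ∀ a, 0 ≤ W a) (N : ℕ) (e : ℝ) (he : 0 ≤ e)
    (hcorr : ∀ n n', 1 ≤ n → n ≤ N → 1 ≤ n' → n' ≤ N → n.Coprime Q → n'.Coprime Q →
      (∃ q, q.Prime ∧ ¬ n.factorization q ≡ n'.factorization q [MOD 2 * h]) →
      ‖∑ a ∈ A, (W a : ℂ) * Ψ a n * conj (Ψ a n')‖ ≤ e)
    (S : Finset ℕ) (hS : S ⊆ Icc 1 N) (hSQ : ∀ n ∈ S, n.Coprime Q) (y : ℕ)
    (hy : ∀ n ∈ S, ∀ m, n ∣ m * m → 0 < m → y < m) :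
    ∑ a ∈ A, W a * ‖∑ n ∈ S, Ψ a n / n‖ ^ 2 ≤
      (∑ m ∈ Ioc y N, ((m * m).divisors.card : ℝ) / ((m : ℝ) * m)) * ∑ a ∈ A, W a +
      (1 + Real.log N) ^ 2 * e := by
  have hS' : ∀ n ∈ S, 1 ≤ n ∧ n ≤ N := fun n hn => mem_Icc.1 (hS hn)
  have h1 := meansq A W hW (fun a n => Ψ a n)
    (fun a n => norm_le_one (Ψ a) (2 * h) (by omega) (hΨ a) n) S e he ?_
  · refine h1.trans (add_le_add ?_ ?_)
    · apply mul_le_mul_of_nonneg_right _ (sum_nonneg fun a _ => hW a)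
      apply sqpairs S y N hS'
      intro n hn n' hn' m hm
      apply hy n hn m
      · rw [← hm]; exact dvd_mul_right _ _
      · have := Nat.mul_pos (hS' n hn).1 (hS' n' hn').1
        rw [hm] at this
        exact Nat.pos_of_ne_zero fun h => by rw [h] at this; simp at this
    · apply mul_le_mul_of_nonneg_right _ he
      apply pow_le_pow_left₀ (sum_nonneg fun n _ => by positivity)
      exact sum_inv_le N S hS
  · intro n hn n' hn' hsq
    apply hcorr n n' (hS' n hn).1 (hS' n hn).2 (hS' n' hn').1 (hS' n' hn').2 (hSQ n hn)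
      (hSQ n' hn')
    by_contra hcon
    push Not at hcon
    apply hsq
    have hn0 : n ≠ 0 := by have := (hS' n hn).1; omega
    have hn0' : n' ≠ 0 := by have := (hS' n' hn').1; omega
    apply isSquare_of_even _ (mul_ne_zero hn0 hn0')
    intro q hq
    have h2 := hcon q hq
    rw [Nat.factorization_mul hn0 hn0', Finsupp.add_apply, Nat.even_add]
    have h3 : n.factorization q ≡ n'.factorization q [MOD 2] := h2.of_dvd (dvd_mul_right 2 h)
    unfold Nat.ModEq at h3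
    rw [Nat.even_iff, Nat.even_iff, h3]

/-- Chebyshev's inequality -/
lemma cheb {ι : Type*} (A : Finset ι) (W : ι → ℝ) (hW : ∀ a, 0 ≤ W a) (f : ι → ℝ)
    (hf : ∀ a, 0 ≤ f a) (R : ℝ) (B : Finset ι) (hBA : B ⊆ A)
    (hB : ∀ a ∈ B, R ≤ f a) : R * ∑ a ∈ B, W a ≤ ∑ a ∈ A, W a * f a := by
  rw [mul_sum]
  calc ∑ a ∈ B, R * W a ≤ ∑ a ∈ B, W a * f a := by
        apply sum_le_sum
        intro a ha
        rw [mul_comm]
        exact mul_le_mul_of_nonneg_left (hB a ha) (hW a)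
    _ ≤ ∑ a ∈ A, W a * f a :=
        sum_le_sum_of_subset_of_nonneg hBA fun a _ _ => mul_nonneg (hW a) (hf a)

/-- infinitely many primes not dividing `Q`: a finite set of given size -/
lemma primes_card (Q : ℕ) (hQ : 0 < Q) (n : ℕ) : ∃ K : Finset ℕ, #K = n ∧
    ∀ q ∈ K, q.Prime ∧ ¬ q ∣ Q := by
  have h1 : {q : ℕ | q.Prime ∧ ¬ q ∣ Q}.Infinite := by
    apply Set.infinite_of_not_bddAbove
    rintro ⟨b, hb⟩
    obtain ⟨p, hp, hpp⟩ := Nat.exists_infinite_primes (b + Q + 1)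
    have h2 : p ∈ {q : ℕ | q.Prime ∧ ¬ q ∣ Q} := by
      refine ⟨hpp, fun h => ?_⟩
      have := Nat.le_of_dvd hQ h
      omega
    have := hb h2
    omega
  obtain ⟨K, hK, hKc⟩ := h1.exists_subset_card_eq n
  exact ⟨K, hKc, fun q hq => hK hq⟩

/-- the root of unity attached to `(r, b)` -/
noncomputable def rt (ζ : ℂ) (h : ℕ) (z : Fin h × Bool) : ℂ :=
  ζ ^ (2 * (z.1 : ℕ) + (if z.2 then 1 else 0))

lemma rt_pow (ζ : ℂ) (h : ℕ) (hζ : IsPrimitiveRoot ζ (2 * h)) (z : Fin h × Bool) :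
    rt ζ h z ^ (2 * h) = 1 := by
  unfold rt
  rw [← pow_mul, mul_comm, pow_mul, hζ.pow_eq_one, one_pow]

lemma rt_surj (ζ : ℂ) (h : ℕ) (hh : 0 < h) (hζ : IsPrimitiveRoot ζ (2 * h)) (w : ℂ)
    (hw : w ^ (2 * h) = 1) : ∃ z, rt ζ h z = w := by
  have : NeZero (2 * h) := ⟨by omega⟩
  obtain ⟨i, hi, rfl⟩ := hζ.eq_pow_of_pow_eq_one hw
  refine ⟨(⟨i / 2, by omega⟩, decide (i % 2 = 1)), ?_⟩
  unfold rt
  congr 1
  simp only [decide_eq_true_eq]
  split_ifs with h1 <;> omega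

lemma norm_of_pow (d : ℕ) (hd : 0 < d) (w : ℂ) (hw : w ^ d = 1) : ‖w‖ = 1 := by
  have : ‖w‖ ^ d = 1 := by rw [← norm_pow, hw, norm_one]
  exact (pow_eq_one_iff_of_nonneg (norm_nonneg _) hd.ne').mp this

/-- two roots of unity `z, w` with `z^h = 1`, `w^h = -1` have different distances to `q` -/
lemma dist_ne (h : ℕ) (hh : 0 < h) (z w : ℂ) (hz : z ^ h = 1) (hw : w ^ h = -1) (q : ℝ)
    (hq : 0 < q) : ‖1 - z / q‖ ^ 2 ≠ ‖1 - w / q‖ ^ 2 := by
  intro heq
  have hzn : ‖z‖ = 1 := norm_of_pow h hh z hz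
  have hwn : ‖w‖ = 1 := by
    apply norm_of_pow (h * 2) (by omega) w
    rw [pow_mul, hw]; norm_num
  have h1 : ∀ u : ℂ, ‖u‖ = 1 → ‖1 - u / q‖ ^ 2 = 1 - 2 * u.re / q + 1 / q ^ 2 := by
    intro u hu
    have h2 : u.re ^ 2 + u.im ^ 2 = 1 := by
      have := Complex.sq_norm u
      rw [hu, Complex.normSq_apply] at this
      nlinarith
    rw [Complex.sq_norm, Complex.normSq_apply]
    simp only [Complex.sub_re, Complex.one_re, Complex.sub_im, Complex.one_im,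
      Complex.div_ofReal_re, Complex.div_ofReal_im]
    field_simp
    nlinarith
  rw [h1 z hzn, h1 w hwn] at heq
  have hre : z.re = w.re := by
    field_simp at heq
    nlinarith
  have him : z.im ^ 2 = w.im ^ 2 := by
    have h2 := Complex.sq_norm z
    have h3 := Complex.sq_norm w
    rw [hzn, Complex.normSq_apply] at h2
    rw [hwn, Complex.normSq_apply] at h3
    rw [hre] at h2
    nlinarith
  rcases sq_eq_sq_iff_eq_or_eq_neg.mp him with h4 | h4
  · have : z = w := Complex.ext hre h4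
    rw [this, hw] at hz
    norm_num at hz
  · have : z = conj w := by
      apply Complex.ext
      · simpa using hre
      · simpa using h4
    rw [this, ← map_pow, hw] at hz
    norm_num at hz

/-- a common gap -/
lemma common_gap (h : ℕ) (hh : 0 < h) (ζ : ℂ) (hζ : IsPrimitiveRoot ζ (2 * h)) (K : Finset ℕ)
    (hK : ∀ q ∈ K, q.Prime) : ∃ δ : ℝ, 0 < δ ∧ ∀ q ∈ K, ∀ r : Fin h,
      (1 + δ) * (‖1 - rt ζ h (r, false) / q‖ ^ 2)⁻¹ ≤ (‖1 - rt ζ h (r, true) / q‖ ^ 2)⁻¹ ∨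
      (1 + δ) * (‖1 - rt ζ h (r, true) / q‖ ^ 2)⁻¹ ≤ (‖1 - rt ζ h (r, false) / q‖ ^ 2)⁻¹ := by
  have key : ∀ u v : ℝ, 0 < u → u < v → ∀ᶠ δ in 𝓝[>] (0 : ℝ), (1 + δ) * u ≤ v := by
    intro u v hu huv
    have h1 : Tendsto (fun δ : ℝ => (1 + δ) * u) (𝓝[>] (0 : ℝ)) (𝓝 ((1 + 0) * u)) := by
      apply tendsto_nhdsWithin_of_tendsto_nhds
      exact ((continuous_const.add continuous_id).mul continuous_const).tendsto 0
    rw [add_zero, one_mul] at h1
    filter_upwards [h1.eventually_lt_const huv] with δ hδ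
    exact hδ.le
  have hne0 : ∀ (q : ℕ), q.Prime → ∀ z : Fin h × Bool, 0 < (‖1 - rt ζ h z / q‖ ^ 2)⁻¹ := by
    intro q hq z
    rw [inv_pos]
    apply pow_pos
    rw [norm_pos_iff]
    intro h0
    have h1 : rt ζ h z = q := by
      have hq0 : (q : ℂ) ≠ 0 := by exact_mod_cast hq.ne_zero
      exact (div_eq_one_iff_eq hq0).mp (sub_eq_zero.mp h0).symm
    have h2 := norm_of_pow (2 * h) (by omega) _ (rt_pow ζ h hζ z)
    rw [h1, Complex.norm_natCast] at h2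
    have : q = 1 := by exact_mod_cast h2
    exact hq.one_lt.ne' this
  have h2 : ∀ᶠ δ in 𝓝[>] (0 : ℝ), ∀ q ∈ K, ∀ r : Fin h,
      (1 + δ) * (‖1 - rt ζ h (r, false) / q‖ ^ 2)⁻¹ ≤ (‖1 - rt ζ h (r, true) / q‖ ^ 2)⁻¹ ∨
      (1 + δ) * (‖1 - rt ζ h (r, true) / q‖ ^ 2)⁻¹ ≤ (‖1 - rt ζ h (r, false) / q‖ ^ 2)⁻¹ := by
    rw [Filter.eventually_all_finset]
    intro q hq
    rw [Filter.eventually_all]
    intro r
    have hqp := hK q hq
    have hzh : rt ζ h (r, false) ^ h = 1 := by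
      unfold rt
      rw [← pow_mul]
      simp only [Bool.false_eq_true, if_false, add_zero]
      rw [show 2 * (r : ℕ) * h = 2 * h * r by ring, pow_mul, hζ.pow_eq_one, one_pow]
    have hζh : ζ ^ h = -1 := by
      have h3 : (ζ ^ h) ^ 2 = 1 := by rw [← pow_mul, mul_comm, hζ.pow_eq_one]
      rcases mul_self_eq_one_iff.mp ((sq _).symm.trans h3) with h4 | h4
      · exfalso
        have := (hζ.pow_eq_one_iff_dvd h).mp h4
        have := Nat.le_of_dvd hh this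
        omega
      · exact h4
    have hwh : rt ζ h (r, true) ^ h = -1 := by
      unfold rt
      rw [← pow_mul]
      simp only [if_true]
      rw [show (2 * (r : ℕ) + 1) * h = 2 * h * r + h by ring, pow_add, pow_mul, hζ.pow_eq_one,
        one_pow, one_mul, hζh]
    have hne := dist_ne h hh _ _ hzh hwh q (by exact_mod_cast hqp.pos)
    have hne' : (‖1 - rt ζ h (r, false) / q‖ ^ 2)⁻¹ ≠ (‖1 - rt ζ h (r, true) / q‖ ^ 2)⁻¹ := by
      intro h5
      exact hne (by simpa using inv_injective h5)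
    rcases lt_or_gt_of_ne hne' with h5 | h5
    · filter_upwards [key _ _ (hne0 q hqp _) h5] with δ hδ
      exact Or.inl hδ
    · filter_upwards [key _ _ (hne0 q hqp _) h5] with δ hδ
      exact Or.inr hδ
  obtain ⟨δ, h3, h4⟩ := (h2.and self_mem_nhdsWithin).exists
  exact ⟨δ, h4, h3⟩

end Pool.Agent.R361.AC
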