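import Mathlib
import Pool.Agent.R361.AC.Prep

set_option autoImplicit false

/-! # The anti-concentration theorem -/

namespace Pool.Agent.R361.AC

open Finset Filter Topology
open scoped ComplexConjugate

lemma factorization_subprod (s : Finset ℕ) (hs : ∀ q ∈ s, q.Prime) (v : s → ℕ) (q0 : s) :
    (∏ q : s, (q : ℕ) ^ (v q)).factorization q0 = v q0 := by
  rw [Nat.factorization_prod (S := univ) (g := fun q : s => (q : ℕ) ^ (v q))
    (fun q _ => pow_ne_zero _ (hs q q.2).ne_zero)]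
  rw [Finsupp.finsetSum_apply]
  rw [sum_eq_single q0]
  · rw [Nat.factorization_pow, Finsupp.smul_apply, (hs q0 q0.2).factorization_self, smul_eq_mul,
      mul_one]
  · intro q _ hq
    rw [Nat.factorization_pow, Finsupp.smul_apply, (hs q q.2).factorization, Finsupp.single_apply,
      if_neg (fun h => hq (Subtype.ext h)), smul_zero]
  · intro h; exact absurd (mem_univ q0) h

lemma sum_biUnion_le' {α β : Type*} [DecidableEq β] (s : Finset α) (t : α → Finset β)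
    (f : β → ℝ) (hf : ∀ b, 0 ≤ f b) : ∑ b ∈ s.biUnion t, f b ≤ ∑ x ∈ s, ∑ b ∈ t x, f b := by
  classical
  induction s using Finset.induction_on with
  | empty => simp
  | insert a s ha ih =>
    rw [biUnion_insert, sum_insert ha]
    have h1 := sum_union_inter (s₁ := t a) (s₂ := s.biUnion t) (f := f)
    have h2 : 0 ≤ ∑ b ∈ t a ∩ s.biUnion t, f b := sum_nonneg fun b _ => hf b
    linarith

open Classical in
theorem pattern_count {ι : Type*} (h : ℕ) (hh : 0 < h) (ζ : ℂ) (hζ : IsPrimitiveRoot ζ (2 * h))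
    (Q : ℕ) (Ψ : ι → ℕ →*₀ ℂ) (hΨ : ∀ a q, q.Prime → Ψ a q = 0 ∨ (Ψ a q) ^ (2 * h) = 1)
    (A : Finset ι) (W : ι → ℝ) (hW : ∀ a, 0 ≤ W a) (N : ℕ) (e : ℝ) (he : 0 ≤ e)
    (hcorr : ∀ n n', 1 ≤ n → n ≤ N → 1 ≤ n' → n' ≤ N → n.Coprime Q → n'.Coprime Q →
      (∃ q, q.Prime ∧ ¬ n.factorization q ≡ n'.factorization q [MOD 2 * h]) →
      ‖∑ a ∈ A, (W a : ℂ) * Ψ a n * conj (Ψ a n')‖ ≤ e)
    (s : Finset ℕ) (hs : ∀ q ∈ s, q.Prime) (hsQ : ∀ q ∈ s, ¬ q ∣ Q)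
    (hNs : ∏ q ∈ s, q ^ (2 * h) ≤ N) (K : Finset ℕ) (hKs : K ⊆ s) (δ : ℝ) (hδ : 0 < δ)
    (hgap : ∀ q ∈ K, ∀ r : Fin h,
      (1 + δ) * (‖1 - rt ζ h (r, false) / q‖ ^ 2)⁻¹ ≤ (‖1 - rt ζ h (r, true) / q‖ ^ 2)⁻¹ ∨
      (1 + δ) * (‖1 - rt ζ h (r, true) / q‖ ^ 2)⁻¹ ≤ (‖1 - rt ζ h (r, false) / q‖ ^ 2)⁻¹) (b : ℝ) :
    (∑ a ∈ A.filter (fun a => (∀ q ∈ s, Ψ a q ≠ 0) ∧ b ≤ ‖∏ q ∈ s, (1 - Ψ a q / q)⁻¹‖ ^ 2 ∧
      ‖∏ q ∈ s, (1 - Ψ a q / q)⁻¹‖ ^ 2 < (1 + δ) * b), W a) * 2 ^ #K ≤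
      ((#K).choose (#K / 2) : ℝ) * ((∑ a ∈ A, W a) + (2 * h : ℝ) ^ #s * e) := by
  have hd : 0 < 2 * h := by omega
  set G : s → Fin h × Bool → ℝ := fun q z => (‖1 - rt ζ h z / (q : ℕ)‖ ^ 2)⁻¹ with hG
  have hG0 : ∀ q z, 0 < G q z := by
    intro q z
    simp only [hG]
    rw [inv_pos]
    apply pow_pos
    rw [norm_pos_iff]
    intro h0
    have hq := hs q q.2
    have h1 : rt ζ h z = (q : ℕ) := by
      have hq0 : ((q : ℕ) : ℂ) ≠ 0 := by exact_mod_cast hq.ne_zero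
      exact (div_eq_one_iff_eq hq0).mp (sub_eq_zero.mp h0).symm
    have h2 := norm_of_pow (2 * h) (by omega) _ (rt_pow ζ h hζ z)
    rw [h1, Complex.norm_natCast] at h2
    have : (q : ℕ) = 1 := by exact_mod_cast h2
    exact hq.one_lt.ne' this
  set K' : Finset s := K.subtype (· ∈ s) with hK'
  have hK'c : #K' = #K := by
    rw [hK', card_subtype, filter_true_of_mem]
    exact fun q hq => hKs hq
  have hpat := patterns h G hG0 K' δ hδ (by
    intro q hq r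
    rw [hK', mem_subtype] at hq
    exact hgap q hq r) b
  rw [hK'c, Fintype.card_coe] at hpat
  set Bad := univ.filter (fun x : s → Fin h × Bool => b ≤ ∏ q, G q (x q) ∧
      ∏ q, G q (x q) < (1 + δ) * b) with hBad
  set WT := ∑ a ∈ A, W a with hWT
  have hWT0 : 0 ≤ WT := sum_nonneg fun a _ => hW a
  -- each pattern
  have hd0 : (0 : ℝ) < ((2 * h : ℕ) : ℝ) ^ #s := by positivity
  have hone : ∀ x : s → Fin h × Bool,
      ∑ a ∈ A.filter (fun a => ∀ q : s, Ψ a q = rt ζ h (x q)), W a ≤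
        (WT + (2 * h : ℝ) ^ #s * e) / ((2 * h : ℕ) : ℝ) ^ #s := by
    intro x
    rw [le_div_iff₀ hd0]
    have h1 := equi A W hW Ψ (2 * h) hd s (fun a q hq => hΨ a q (hs q hq)) e ?_
      (fun q => rt ζ h (x q)) (fun q => rt_pow ζ h hζ _)
    · rw [abs_of_nonneg he] at h1
      refine h1.trans (le_of_eq ?_)
      push_cast
      rfl
    · rintro v hv ⟨q0, hq0⟩
      have h2 := hcorr (∏ q : s, (q : ℕ) ^ (v q)) 1 ?_ ?_ le_rfl ?_ ?_ ?_ ?_
      · simpa using h2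
      · exact Nat.one_le_iff_ne_zero.mpr
          (prod_ne_zero_iff.mpr fun q _ => pow_ne_zero _ (hs q q.2).ne_zero)
      · refine le_trans ?_ hNs
        rw [← prod_coe_sort s (fun q => q ^ (2 * h))]
        apply prod_le_prod'
        intro q _
        exact Nat.pow_le_pow_right (hs q q.2).pos (hv q).le
      · refine le_trans ?_ hNs
        exact Nat.one_le_iff_ne_zero.mpr
          (prod_ne_zero_iff.mpr fun q hq => pow_ne_zero _ (hs q hq).ne_zero)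
      · apply Nat.Coprime.prod_left
        intro q _
        apply Nat.Coprime.pow_left
        exact (Nat.Prime.coprime_iff_not_dvd (hs q q.2)).mpr (hsQ q q.2)
      · exact Nat.coprime_one_left Q
      · refine ⟨q0, hs q0 q0.2, ?_⟩
        rw [factorization_subprod s hs v q0, Nat.factorization_one]
        simp only [Finsupp.coe_zero, Pi.zero_apply]
        intro h3
        have h4 := hv q0
        unfold Nat.ModEq at h3
        rw [Nat.mod_eq_of_lt h4, Nat.zero_mod] at h3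
        exact hq0 h3
  -- covering
  have hcov : (∑ a ∈ A.filter (fun a => (∀ q ∈ s, Ψ a q ≠ 0) ∧
      b ≤ ‖∏ q ∈ s, (1 - Ψ a q / q)⁻¹‖ ^ 2 ∧
      ‖∏ q ∈ s, (1 - Ψ a q / q)⁻¹‖ ^ 2 < (1 + δ) * b), W a) ≤
      ∑ x ∈ Bad, ∑ a ∈ A.filter (fun a => ∀ q : s, Ψ a q = rt ζ h (x q)), W a := by
    have h1 : A.filter (fun a => (∀ q ∈ s, Ψ a q ≠ 0) ∧
      b ≤ ‖∏ q ∈ s, (1 - Ψ a q / q)⁻¹‖ ^ 2 ∧
      ‖∏ q ∈ s, (1 - Ψ a q / q)⁻¹‖ ^ 2 < (1 + δ) * b) ⊆
      Bad.biUnion (fun x => A.filter (fun a => ∀ q : s, Ψ a q = rt ζ h (x q))) := by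
      intro a ha
      rw [mem_filter] at ha
      obtain ⟨haA, ha1, ha2, ha3⟩ := ha
      have h2 : ∀ q : s, ∃ z, rt ζ h z = Ψ a q := by
        intro q
        apply rt_surj ζ h hh hζ
        rcases hΨ a q (hs q q.2) with h3 | h3
        · exact absurd h3 (ha1 q q.2)
        · exact h3
      choose x hx using h2
      have h3 : ‖∏ q ∈ s, (1 - Ψ a q / q)⁻¹‖ ^ 2 = ∏ q, G q (x q) := by
        rw [norm_prod, ← prod_pow, ← prod_coe_sort s]
        apply prod_congr rfl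
        intro q _
        simp only [hG]
        rw [norm_inv, inv_pow, hx q]
      rw [mem_biUnion]
      refine ⟨x, ?_, ?_⟩
      · rw [hBad, mem_filter]
        rw [h3] at ha2 ha3
        exact ⟨mem_univ _, ha2, ha3⟩
      · rw [mem_filter]
        exact ⟨haA, fun q => (hx q).symm⟩
    refine (sum_le_sum_of_subset_of_nonneg h1 fun a _ _ => hW a).trans ?_
    exact sum_biUnion_le' Bad _ W hW
  set S1 := ∑ a ∈ A.filter (fun a => (∀ q ∈ s, Ψ a q ≠ 0) ∧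
      b ≤ ‖∏ q ∈ s, (1 - Ψ a q / q)⁻¹‖ ^ 2 ∧
      ‖∏ q ∈ s, (1 - Ψ a q / q)⁻¹‖ ^ 2 < (1 + δ) * b), W a with hS1
  have h5 : S1 ≤ #Bad * ((WT + (2 * h : ℝ) ^ #s * e) / ((2 * h : ℕ) : ℝ) ^ #s) := by
    refine hcov.trans ?_
    rw [← nsmul_eq_mul, ← sum_const]
    exact sum_le_sum fun x _ => hone x
  have h6 : (#Bad : ℝ) * 2 ^ #K ≤ ((2 * h : ℕ) : ℝ) ^ #s * ((#K).choose (#K / 2) : ℝ) := by
    exact_mod_cast hpat
  have h7 : 0 ≤ WT + (2 * h : ℝ) ^ #s * e := by positivity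
  calc S1 * 2 ^ #K ≤ #Bad * ((WT + (2 * h : ℝ) ^ #s * e) / ((2 * h : ℕ) : ℝ) ^ #s) * 2 ^ #K :=
        mul_le_mul_of_nonneg_right h5 (by positivity)
    _ = (#Bad * 2 ^ #K) * ((WT + (2 * h : ℝ) ^ #s * e) / ((2 * h : ℕ) : ℝ) ^ #s) := by ring
    _ ≤ (((2 * h : ℕ) : ℝ) ^ #s * ((#K).choose (#K / 2) : ℝ)) *
        ((WT + (2 * h : ℝ) ^ #s * e) / ((2 * h : ℕ) : ℝ) ^ #s) :=
        mul_le_mul_of_nonneg_right h6 (by positivity)
    _ = _ := by field_simp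

open Classical in
/-- **Anti-concentration.**  Suppose the completely multiplicative functions `Ψ a` take values in
`{0} ∪ μ_{2h}` at primes, and that with respect to the weights `W x` the values `Ψ a n`,
`n ≤ N x`, satisfy the orthogonality relations up to a small error.  Then for a locally finite set
`T` of positive reals the total weight of those `a` for which `|∑_{n ≤ N x} Ψ_a(n)/n|²` is within
`η` of `T` is at most `ε M(x)`. -/
theorem almost {ι : Type*} (h : ℕ) (hh : 0 < h) (ζ : ℂ) (hζ : IsPrimitiveRoot ζ (2 * h))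
    (Q : ℕ) (hQ : 0 < Q) (Ψ : ι → ℕ →*₀ ℂ)
    (hΨ : ∀ a q, q.Prime → Ψ a q = 0 ∨ (Ψ a q) ^ (2 * h) = 1)
    (hΨQ : ∀ a q, q.Prime → q ∣ Q → Ψ a q = 0)
    (A : ℕ → Finset ι) (W : ℕ → ι → ℝ) (hW : ∀ x a, 0 ≤ W x a)
    (N : ℕ → ℕ) (hN : Tendsto N atTop atTop)
    (M : ℕ → ℝ) (hM : ∀ᶠ x in atTop, 0 < M x)
    (C : ℝ) (hC0 : 0 < C) (hC : ∀ᶠ x in atTop, ∑ a ∈ A x, W x a ≤ C * M x)
    (e : ℕ → ℝ) (he0 : ∀ x, 0 ≤ e x)
    (he : ∀ θ : ℝ, 0 < θ → ∀ᶠ x in atTop, (1 + Real.log (N x)) ^ 2 * e x ≤ θ * M x)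
    (hcorr : ∀ᶠ x in atTop, ∀ n n', 1 ≤ n → n ≤ N x → 1 ≤ n' → n' ≤ N x → n.Coprime Q →
      n'.Coprime Q → (∃ q, q.Prime ∧ ¬ n.factorization q ≡ n'.factorization q [MOD 2 * h]) →
      ‖∑ a ∈ A x, (W x a : ℂ) * Ψ a n * conj (Ψ a n')‖ ≤ e x)
    (T : Set ℝ) (hT0 : ∀ t ∈ T, 0 < t) (hTf : ∀ R, (T ∩ Set.Iic R).Finite)
    (ε : ℝ) (hε : 0 < ε) :
    ∃ η : ℝ, 0 < η ∧ ∃ y : ℕ, ∀ᶠ x in atTop,
      ∑ a ∈ (A x).filter (fun a => (∀ q, q.Prime → ¬ q ∣ Q → q ≤ y → Ψ a q ≠ 0) ∧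
        ∃ t ∈ T, |‖∑ n ∈ Icc 1 (N x), Ψ a n / n‖ ^ 2 - t| ≤ η), W x a ≤ ε * M x := by
  obtain ⟨C2, hC2, hC2'⟩ : ∃ C2 : ℝ, 0 < C2 ∧ ∀ N : ℕ,
      ∑ m ∈ Ioc 0 N, ((m * m).divisors.card : ℝ) / ((m : ℝ) * m) ≤ C2 := by
    refine ⟨(∑' m : ℕ, ((m * m).divisors.card : ℝ) / ((m : ℝ) * m)) + 1, ?_, fun N => ?_⟩
    · have : 0 ≤ ∑' m : ℕ, ((m * m).divisors.card : ℝ) / ((m : ℝ) * m) :=
        tsum_nonneg fun m => by positivity
      linarith
    · have := summable_tausq.sum_le_tsum (Ioc 0 N) (fun m _ => by positivity)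
      linarith
  set R : ℝ := 4 * (C2 * C + 1) / ε with hR
  have hR0 : 0 < R := by positivity
  have hfin := hTf (R + 1)
  set TR := hfin.toFinset with hTR
  have hTRpos : ∀ t ∈ TR, 0 < t := by
    intro t ht
    rw [hTR, Set.Finite.mem_toFinset] at ht
    exact hT0 t ht.1
  obtain ⟨t0, ht0, ht0'⟩ : ∃ t0 : ℝ, 0 < t0 ∧ ∀ t ∈ TR, t0 ≤ t := by
    rcases TR.eq_empty_or_nonempty with h1 | h1
    · exact ⟨1, one_pos, fun t ht => by rw [h1] at ht; simp at ht⟩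
    · refine ⟨TR.min' h1, hTRpos _ (min'_mem _ _), fun t ht => min'_le _ _ ht⟩
  set ε1 : ℝ := ε / (4 * (C + 1) * (#TR + 1)) with hε1
  have hε10 : 0 < ε1 := by positivity
  obtain ⟨n, hn⟩ := binom_small ε1 hε10
  have hn := hn n le_rfl
  obtain ⟨K, hKc, hK⟩ := primes_card Q hQ (2 * n)
  obtain ⟨δ0, hδ0, hgap⟩ := common_gap h hh ζ hζ K (fun q hq => (hK q hq).1)
  set θ0 : ℝ := δ0 / (4 * (1 + δ0)) with hθ0
  have hθ00 : 0 < θ0 := by positivity
  have hθ0e : θ0 * (4 * (1 + δ0)) = δ0 := by rw [hθ0]; field_simp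
  have hθ01 : θ0 ≤ 1 / 4 := by
    rw [hθ0, div_le_iff₀ (by positivity)]; linarith
  have hθδ : 1 + θ0 < (1 + δ0) * (1 - θ0) := by nlinarith
  set η : ℝ := min 1 (θ0 * t0 / 2) with hη
  have hη0 : 0 < η := lt_min one_pos (by positivity)
  set η' : ℝ := min 1 (θ0 * t0 / (2 * (2 * R + 3))) with hη'
  have hη'0 : 0 < η' := lt_min one_pos (by positivity)
  obtain ⟨y0, hy0⟩ := tausq_tail (ε * η' ^ 2 / (32 * C)) (by positivity)
  set y := max y0 (K.sup id) with hy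
  set s := (Icc 1 y).filter (fun q => q.Prime ∧ ¬ q ∣ Q) with hs
  have hsp : ∀ q ∈ s, q.Prime := fun q hq => (mem_filter.mp hq).2.1
  have hsQ : ∀ q ∈ s, ¬ q ∣ Q := fun q hq => (mem_filter.mp hq).2.2
  have hKs : K ⊆ s := by
    intro q hq
    rw [hs, mem_filter, mem_Icc]
    exact ⟨⟨(hK q hq).1.one_le, le_trans (le_sup (f := id) hq) (le_max_right _ _)⟩, hK q hq⟩
  obtain ⟨N0, hN0⟩ := smooth_approx s hsp (η' / 2) (by positivity)
  refine ⟨η, hη0, y, ?_⟩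
  have hd0 : (0 : ℝ) < (2 * h : ℝ) ^ #s := by positivity
  filter_upwards [hM, hC, he 1 one_pos, he (ε * η' ^ 2 / 32) (by positivity), hcorr,
    hN.eventually_ge_atTop N0, hN.eventually_ge_atTop (∏ q ∈ s, q ^ (2 * h)),
    hN.eventually_ge_atTop 1, he (1 / (2 * h : ℝ) ^ #s) (by positivity)] with
    x hMx hCx he1 he2 hcorrx hNx hNx2 hNx1 he3
  have hlog : 0 ≤ Real.log (N x) := Real.log_natCast_nonneg _
  have he3' : (2 * h : ℝ) ^ #s * e x ≤ M x := by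
    have h1 : e x ≤ (1 + Real.log (N x)) ^ 2 * e x :=
      le_mul_of_one_le_left (he0 x) (one_le_pow₀ (by linarith))
    have h2 := mul_le_mul_of_nonneg_left (h1.trans he3) hd0.le
    refine h2.trans (le_of_eq ?_)
    field_simp
  set WT := ∑ a ∈ A x, W x a with hWT
  have hWT0 : 0 ≤ WT := sum_nonneg fun a _ => hW x a
  -- the sets
  set D : ι → ℂ := fun a => ∑ n ∈ Icc 1 (N x), Ψ a n / n with hD
  set E : ι → ℂ := fun a => ∏ q ∈ s, (1 - Ψ a q / q)⁻¹ with hE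
  set S0 := (Icc 1 (N x)).filter (fun n => n.Coprime Q) with hS0
  set S1 := S0.filter (fun n => n ∉ Nat.factoredNumbers s) with hS1
  set V : ι → ℂ := fun a => ∑ n ∈ S1, Ψ a n / n with hV
  have hz : ∀ a n, ¬ n.Coprime Q → Ψ a n = 0 := fun a n hn' =>
    zero_of_not_coprime (Ψ a) Q (hΨQ a) n hn'
  have hDS0 : ∀ a, D a = ∑ n ∈ S0, Ψ a n / n := by
    intro a
    simp only [hD, hS0]
    rw [sum_filter]
    apply sum_congr rfl
    intro m _
    split_ifs with h1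
    · rfl
    · rw [hz a m h1, zero_div]
  have hDV : ∀ a, D a = (∑ n ∈ (Icc 1 (N x)).filter (fun n => n ∈ Nat.factoredNumbers s),
      Ψ a n / n) + V a := by
    intro a
    rw [hDS0, hV]
    simp only
    rw [← sum_filter_add_sum_filter_not S0 (fun n => n ∈ Nat.factoredNumbers s)]
    congr 1
    simp only [hS0]
    rw [filter_filter, sum_filter, sum_filter]
    apply sum_congr rfl
    intro m _
    by_cases h1 : m.Coprime Q
    · by_cases h2 : m ∈ Nat.factoredNumbers s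
      · rw [if_pos ⟨h1, h2⟩, if_pos h2]
      · rw [if_neg (fun h => h2 h.2), if_neg h2]
    · rw [hz a m h1, zero_div, ite_self, ite_self]
  have hDE : ∀ a, ‖D a - E a‖ ≤ ‖V a‖ + η' / 2 := by
    intro a
    let f : ℕ →* ℂ :=
      { toFun := fun n => Ψ a n / n
        map_one' := by simp
        map_mul' := fun m n => by push_cast; rw [map_mul]; rw [mul_div_mul_comm] }
    have h1 := hN0 (N x) hNx f (by
      intro m
      change ‖Ψ a m / m‖ ≤ _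
      rw [norm_div, Complex.norm_natCast]
      exact div_le_div_of_nonneg_right (norm_le_one (Ψ a) (2 * h) (by omega) (hΨ a) m)
        (Nat.cast_nonneg _))
    have h2 : D a - E a = V a + ((∑ n ∈ (Icc 1 (N x)).filter
        (fun n => n ∈ Nat.factoredNumbers s), f n) - ∏ p ∈ s, (1 - f p)⁻¹) := by
      rw [hDV]
      change _ = V a + ((∑ n ∈ (Icc 1 (N x)).filter
        (fun n => n ∈ Nat.factoredNumbers s), Ψ a n / n) - ∏ p ∈ s, (1 - Ψ a p / p)⁻¹)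
      ring
    rw [h2]
    exact (norm_add_le _ _).trans (add_le_add le_rfl h1)
  -- mean squares
  have hms0 : ∑ a ∈ A x, W x a * ‖D a‖ ^ 2 ≤ (C2 * C + 1) * M x := by
    have h1 := ms_bound h hh Q Ψ hΨ (A x) (W x) (hW x) (N x) (e x) (he0 x) hcorrx S0
      (filter_subset _ _) (fun n hn' => (mem_filter.mp hn').2) 0 (fun _ _ m _ hm => hm)
    simp only [hDS0]
    refine h1.trans ?_
    have h2 : (∑ m ∈ Ioc 0 (N x), ((m * m).divisors.card : ℝ) / ((m : ℝ) * m)) * WT ≤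
        C2 * (C * M x) := mul_le_mul (hC2' _) hCx hWT0 hC2.le
    linarith
  have hms1 : ∑ a ∈ A x, W x a * ‖V a‖ ^ 2 ≤ ε * η' ^ 2 / 16 * M x := by
    have h1 := ms_bound h hh Q Ψ hΨ (A x) (W x) (hW x) (N x) (e x) (he0 x) hcorrx S1
      ((filter_subset _ _).trans (filter_subset _ _))
      (fun n hn' => (mem_filter.mp (mem_filter.mp hn').1).2) y ?_
    · refine h1.trans ?_
      have h2 : (∑ m ∈ Ioc y (N x), ((m * m).divisors.card : ℝ) / ((m : ℝ) * m)) * WT ≤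
          ε * η' ^ 2 / (32 * C) * (C * M x) :=
        mul_le_mul (hy0 y (le_max_left _ _) _) hCx hWT0 (by positivity)
      have h3 : ε * η' ^ 2 / (32 * C) * (C * M x) = ε * η' ^ 2 / 32 * M x := by
        field_simp
      linarith
    · intro m hm k hk hk0
      rw [hS1, mem_filter, hS0, mem_filter, mem_Icc] at hm
      obtain ⟨⟨hm1, hm2⟩, hm3⟩ := hm
      rw [Nat.mem_factoredNumbers'] at hm3
      push Not at hm3
      obtain ⟨p, hp, hpm, hps⟩ := hm3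
      have hpy : y < p := by
        by_contra hcon
        push Not at hcon
        apply hps
        rw [hs, mem_filter, mem_Icc]
        refine ⟨⟨hp.one_le, hcon⟩, hp, fun hpQ => ?_⟩
        exact Nat.Prime.not_coprime_iff_dvd.mpr ⟨p, hp, hpm, hpQ⟩ hm2
      have h4 : p ∣ k * k := hpm.trans hk
      have h5 : p ∣ k := by
        rcases hp.dvd_mul.mp h4 with h | h <;> exact h
      exact lt_of_lt_of_le hpy (Nat.le_of_dvd hk0 h5)
  -- the three exceptional sets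
  set B1 := (A x).filter (fun a => R ≤ ‖D a‖ ^ 2) with hB1
  set B2 := (A x).filter (fun a => (η' / 2) ^ 2 ≤ ‖V a‖ ^ 2) with hB2
  set B3 : ℝ → Finset ι := fun t => (A x).filter (fun a => (∀ q ∈ s, Ψ a q ≠ 0) ∧
      (1 - θ0) * t ≤ ‖E a‖ ^ 2 ∧ ‖E a‖ ^ 2 < (1 + δ0) * ((1 - θ0) * t)) with hB3
  have hb1 : ∑ a ∈ B1, W x a ≤ ε / 4 * M x := by
    have h1 := cheb (A x) (W x) (hW x) (fun a => ‖D a‖ ^ 2) (fun a => sq_nonneg _) R B1
      (filter_subset _ _) (fun a ha => (mem_filter.mp ha).2)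
    have h2 := h1.trans hms0
    rw [← mul_le_mul_iff_right₀ hR0]
    refine h2.trans (le_of_eq ?_)
    rw [hR]
    field_simp
  have hb2 : ∑ a ∈ B2, W x a ≤ ε / 4 * M x := by
    have h1 := cheb (A x) (W x) (hW x) (fun a => ‖V a‖ ^ 2) (fun a => sq_nonneg _)
      ((η' / 2) ^ 2) B2 (filter_subset _ _) (fun a ha => (mem_filter.mp ha).2)
    have h2 := h1.trans hms1
    have h3 : (0 : ℝ) < (η' / 2) ^ 2 := by positivity
    rw [← mul_le_mul_iff_right₀ h3]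
    refine h2.trans (le_of_eq ?_)
    ring
  have hb3 : ∀ t, ∑ a ∈ B3 t, W x a ≤ ε1 * ((C + 1) * M x) := by
    intro t
    have h1 := pattern_count h hh ζ hζ Q Ψ hΨ (A x) (W x) (hW x) (N x) (e x) (he0 x) hcorrx
      s hsp hsQ hNx2 K hKs δ0 hδ0 hgap ((1 - θ0) * t)
    rw [hKc] at h1
    have h2 : 2 * n / 2 = n := by omega
    rw [h2] at h1
    have h3 : WT + (2 * h : ℝ) ^ #s * e x ≤ (C + 1) * M x := by linarith
    have h4 : (0 : ℝ) < 2 ^ (2 * n) := by positivity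
    rw [← mul_le_mul_iff_left₀ h4]
    calc (∑ a ∈ B3 t, W x a) * 2 ^ (2 * n) ≤ ((2 * n).choose n : ℝ) *
          (WT + (2 * h : ℝ) ^ #s * e x) := h1
      _ ≤ (ε1 * 2 ^ (2 * n)) * ((C + 1) * M x) := by
          apply mul_le_mul hn h3 _ (by positivity)
          have := mul_nonneg hd0.le (he0 x)
          linarith
      _ = _ := by ring
  have hsub : (A x).filter (fun a => (∀ q, q.Prime → ¬ q ∣ Q → q ≤ y → Ψ a q ≠ 0) ∧
        ∃ t ∈ T, |‖D a‖ ^ 2 - t| ≤ η) ⊆ (B1 ∪ B2) ∪ TR.biUnion B3 := by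
    intro a ha
    rw [mem_filter] at ha
    obtain ⟨haA, ha1, t, htT, ht⟩ := ha
    rw [mem_union, mem_union]
    by_cases h1 : R ≤ ‖D a‖ ^ 2
    · exact Or.inl (Or.inl (mem_filter.mpr ⟨haA, h1⟩))
    by_cases h2 : (η' / 2) ^ 2 ≤ ‖V a‖ ^ 2
    · exact Or.inl (Or.inr (mem_filter.mpr ⟨haA, h2⟩))
    right
    push Not at h1 h2
    have hV1 : ‖V a‖ < η' / 2 := lt_of_pow_lt_pow_left₀ 2 (by positivity) h2
    have hDE1 : ‖D a - E a‖ ≤ η' := by linarith [hDE a]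
    have hDR : ‖D a‖ ≤ R + 1 := by
      apply le_of_lt
      apply lt_of_pow_lt_pow_left₀ 2 (by positivity)
      have h7 : R ≤ (R + 1) ^ 2 := by
        have : (R + 1) ^ 2 = R + (R ^ 2 + R + 1) := by ring
        rw [this]
        have : 0 ≤ R ^ 2 + R + 1 := by positivity
        linarith
      exact h1.trans_le h7
    have hη1 : η ≤ 1 := min_le_left _ _
    have hη2 : η ≤ θ0 * t0 / 2 := min_le_right _ _
    have hη'1 : η' ≤ 1 := min_le_left _ _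
    have hη'2 : η' * (2 * (2 * R + 3)) ≤ θ0 * t0 := by
      have : η' ≤ θ0 * t0 / (2 * (2 * R + 3)) := min_le_right _ _
      rwa [le_div_iff₀ (by positivity)] at this
    have htR : t ∈ TR := by
      rw [hTR, Set.Finite.mem_toFinset]
      refine ⟨htT, ?_⟩
      rw [Set.mem_Iic]
      have := (abs_le.mp ht).1
      linarith
    have hE1 : |‖D a‖ - ‖E a‖| ≤ η' := (abs_norm_sub_norm_le _ _).trans hDE1
    have hE2 := abs_le.mp hE1
    have hkey : |‖E a‖ ^ 2 - t| ≤ θ0 * t0 := by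
      have h5 : |‖E a‖ ^ 2 - ‖D a‖ ^ 2| ≤ η' * (2 * R + 3) := by
        have : ‖E a‖ ^ 2 - ‖D a‖ ^ 2 = (‖E a‖ - ‖D a‖) * (‖E a‖ + ‖D a‖) := by ring
        rw [this, abs_mul]
        apply mul_le_mul
        · rw [abs_sub_comm]; exact hE1
        · rw [abs_of_nonneg (by positivity)]
          linarith
        · exact abs_nonneg _
        · exact hη'0.le
      have h6 : ‖E a‖ ^ 2 - t = (‖E a‖ ^ 2 - ‖D a‖ ^ 2) + (‖D a‖ ^ 2 - t) := by ring
      rw [h6]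
      refine (abs_add_le _ _).trans ?_
      linarith
    have ht0t := ht0' t htR
    have htp := hTRpos t htR
    have hkey2 := abs_le.mp hkey
    have hk3 : θ0 * t0 ≤ θ0 * t := mul_le_mul_of_nonneg_left ht0t hθ00.le
    have hk4 : (1 + θ0) * t < (1 + δ0) * (1 - θ0) * t := mul_lt_mul_of_pos_right hθδ htp
    rw [mem_biUnion]
    refine ⟨t, htR, ?_⟩
    rw [hB3, mem_filter]
    refine ⟨haA, ?_, ?_, ?_⟩
    · intro q hq
      rw [hs, mem_filter, mem_Icc] at hq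
      exact ha1 q hq.2.1 hq.2.2 hq.1.2
    · have : (1 - θ0) * t = t - θ0 * t := by ring
      rw [this]
      linarith [hkey2.1]
    · have e1 : (1 + θ0) * t = t + θ0 * t := by ring
      have e2 : (1 + δ0) * ((1 - θ0) * t) = (1 + δ0) * (1 - θ0) * t := by ring
      rw [e2]
      rw [e1] at hk4
      linarith [hkey2.2]
  have hfinal : ∑ a ∈ (A x).filter (fun a => (∀ q, q.Prime → ¬ q ∣ Q → q ≤ y → Ψ a q ≠ 0) ∧
        ∃ t ∈ T, |‖D a‖ ^ 2 - t| ≤ η), W x a ≤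
      (∑ a ∈ B1, W x a + ∑ a ∈ B2, W x a) + ∑ t ∈ TR, ∑ a ∈ B3 t, W x a := by
    refine (sum_le_sum_of_subset_of_nonneg hsub fun a _ _ => hW x a).trans ?_
    have h1 := sum_union_inter (s₁ := B1 ∪ B2) (s₂ := TR.biUnion B3) (f := W x)
    have h2 := sum_union_inter (s₁ := B1) (s₂ := B2) (f := W x)
    have h3 : 0 ≤ ∑ b ∈ (B1 ∪ B2) ∩ TR.biUnion B3, W x b := sum_nonneg fun b _ => hW x b
    have h4 : 0 ≤ ∑ b ∈ B1 ∩ B2, W x b := sum_nonneg fun b _ => hW x b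
    have h5 := sum_biUnion_le' TR B3 (W x) (hW x)
    linarith
  have hlast : ∑ t ∈ TR, ∑ a ∈ B3 t, W x a ≤ ε / 4 * M x := by
    calc ∑ t ∈ TR, ∑ a ∈ B3 t, W x a ≤ ∑ _t ∈ TR, ε1 * ((C + 1) * M x) :=
          sum_le_sum fun t _ => hb3 t
      _ = #TR * (ε1 * ((C + 1) * M x)) := by rw [sum_const, nsmul_eq_mul]
      _ ≤ (#TR + 1) * (ε1 * ((C + 1) * M x)) := by
          apply mul_le_mul_of_nonneg_right (by linarith) (by positivity)
      _ = ε / 4 * M x := by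
          rw [hε1]; field_simp
  refine hfinal.trans ?_
  have : 0 < ε * M x := by positivity
  linarith

end Pool.Agent.R361.AC
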